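/-
Module BEND of project EQD (MP_d3855f_gt), first part: the radius function.
-/
import Pool.Agent.H73.EQD.Stmts

set_option autoImplicit false

open Real Set Topology

namespace EQD.Bend

theorem e_strict {x y : ℝ} (hx : 0 ≤ x) (hxy : x < y) : expNegInvGlue x < expNegInvGlue y := by
  have hy : 0 < y := lt_of_le_of_lt hx hxy
  rcases hx.eq_or_lt with h | h
  · rw [← h, expNegInvGlue.zero]
    exact expNegInvGlue.pos_of_pos hy
  · unfold expNegInvGlue
    rw [if_neg (not_le.mpr h), if_neg (not_le.mpr hy)]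
    apply Real.exp_lt_exp.mpr
    have : y⁻¹ < x⁻¹ := by
      apply inv_strictAnti₀ h hxy
    linarith

theorem ST_strict {x y : ℝ} (hx : 0 ≤ x) (hxy : x < y) (hy : y ≤ 1) : ST x < ST y := by
  unfold ST Real.smoothTransition
  rw [div_lt_div_iff₀ (Real.smoothTransition.pos_denom x) (Real.smoothTransition.pos_denom y)]
  have h1 := e_strict hx hxy
  have h2 : expNegInvGlue (1 - y) ≤ expNegInvGlue (1 - x) := expNegInvGlue.monotone (by linarith)
  have h3 : 0 < expNegInvGlue (1 - x) := expNegInvGlue.pos_of_pos (by linarith)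
  have h4 := expNegInvGlue.nonneg x
  have h5 := expNegInvGlue.nonneg (1 - y)
  nlinarith

theorem ST_half : ST (1 / 2) = 1 / 2 := by
  unfold ST Real.smoothTransition
  have h3 : 0 < expNegInvGlue (1 / 2) := expNegInvGlue.pos_of_pos (by norm_num)
  have h4 : (1 : ℝ) - 1 / 2 = 1 / 2 := by norm_num
  rw [h4]
  field_simp
  norm_num

theorem ST0 {x : ℝ} (h : x ≤ 0) : ST x = 0 := Real.smoothTransition.zero_of_nonpos h
theorem ST1 {x : ℝ} (h : 1 ≤ x) : ST x = 1 := Real.smoothTransition.one_of_one_le h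
theorem STn (x : ℝ) : 0 ≤ ST x := Real.smoothTransition.nonneg x
theorem STl (x : ℝ) : ST x ≤ 1 := Real.smoothTransition.le_one x

theorem fA_cont : Continuous fA := by
  unfold fA
  have h := Real.smoothTransition.continuous
  exact continuous_const.mul ((h.comp (by fun_prop)).add (h.comp (by fun_prop)))

theorem fN_cont : Continuous fN := by
  unfold fN
  have h := Real.smoothTransition.continuous
  exact (continuous_const.add ((h.comp (by fun_prop)).mul (h.comp (by fun_prop)))).sub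
    (((h.comp (by fun_prop)).mul (h.comp (by fun_prop))).div_const 2)

theorem fA_ge {t : ℝ} (h : 9 ≤ t) : fA t = 0 := by
  rw [fA, ST0 (by linarith), ST0 (by linarith)]
  ring

theorem fA_le {t : ℝ} (h : t ≤ 1) : fA t = 2 * π := by
  rw [fA, ST1 (by linarith), ST1 (by linarith)]
  ring

theorem fA_nonneg (t : ℝ) : 0 ≤ fA t := by
  unfold fA
  have := STn ((4 - t) / 3)
  have := STn ((9 - t) / 5)
  have := Real.pi_pos
  positivity

theorem fA_le_two (t : ℝ) : fA t ≤ 2 * π := by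
  unfold fA
  have := STl ((4 - t) / 3)
  have := STl ((9 - t) / 5)
  have := Real.pi_pos
  nlinarith

theorem fA_anti : StrictAntiOn fA (Icc 1 9) := by
  intro s hs t ht hst
  have hpi := Real.pi_pos
  have h1 : ∀ s t : ℝ, 1 ≤ s → s < t → t ≤ 4 → fA t < fA s := by
    intro s t h1 h2 h3
    have h4 := ST_strict (x := (4 - t) / 3) (y := (4 - s) / 3) (by linarith) (by linarith)
      (by linarith)
    rw [fA, fA, ST1 (x := (9 - t) / 5) (by linarith), ST1 (x := (9 - s) / 5) (by linarith)]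
    nlinarith
  have h2 : ∀ s t : ℝ, 4 ≤ s → s < t → t ≤ 9 → fA t < fA s := by
    intro s t h1 h2 h3
    have h4 := ST_strict (x := (9 - t) / 5) (y := (9 - s) / 5) (by linarith) (by linarith)
      (by linarith)
    rw [fA, fA, ST0 (x := (4 - t) / 3) (by linarith), ST0 (x := (4 - s) / 3) (by linarith)]
    nlinarith
  rcases le_total t 4 with h | h
  · exact h1 s t hs.1 hst h
  · rcases le_total 4 s with h' | h'
    · exact h2 s t h' hst ht.2
    · rcases h'.eq_or_lt with h5 | h5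
      · exact h2 s t h5.ge hst ht.2
      · rcases h.eq_or_lt with h6 | h6
        · rw [← h6]
          exact h1 s 4 hs.1 h5 le_rfl
        · exact (h2 4 t le_rfl h6 ht.2).trans (h1 s 4 hs.1 h5 le_rfl)

theorem fA_surj {χ : ℝ} (h0 : 0 ≤ χ) (h1 : χ ≤ 2 * π) : ∃ t ∈ Icc (1 : ℝ) 9, fA t = χ := by
  have h := intermediate_value_Icc' (by norm_num : (1 : ℝ) ≤ 9) fA_cont.continuousOn
  rw [fA_ge le_rfl, fA_le le_rfl] at h
  exact h ⟨h0, h1⟩

theorem exists_tinv : ∃ g : ℝ → ℝ, Continuous g ∧ (∀ χ, g χ ∈ Icc (1 : ℝ) 9) ∧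
    (∀ t ∈ Icc (1 : ℝ) 9, g (fA t) = t) ∧ (∀ χ ∈ Icc 0 (2 * π), fA (g χ) = χ) := by
  have hpi : (0 : ℝ) ≤ 2 * π := by positivity
  let f : Icc (1 : ℝ) 9 → Icc (0 : ℝ) (2 * π) := fun t => ⟨fA t, fA_nonneg t, fA_le_two t⟩
  have hfc : Continuous f := (fA_cont.comp continuous_subtype_val).subtype_mk _
  have hfi : Function.Injective f := by
    intro s t hst
    apply Subtype.ext
    exact fA_anti.injOn s.2 t.2 (congrArg Subtype.val hst)
  have hfs : Function.Surjective f := by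
    rintro ⟨χ, h0, h1⟩
    obtain ⟨t, ht, hft⟩ := fA_surj h0 h1
    exact ⟨⟨t, ht⟩, Subtype.ext hft⟩
  let e := Equiv.ofBijective f ⟨hfi, hfs⟩
  have hec : Continuous e := hfc
  let E := Continuous.homeoOfEquivCompactToT2 hec
  have hE : ∀ t, E t = f t := fun t => rfl
  refine ⟨fun χ => (E.symm (projIcc 0 (2 * π) hpi χ) : ℝ), ?_, ?_, ?_, ?_⟩
  · exact continuous_subtype_val.comp (E.symm.continuous.comp continuous_projIcc)
  · intro χ
    exact (E.symm (projIcc 0 (2 * π) hpi χ)).2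
  · intro t ht
    have h1 : projIcc 0 (2 * π) hpi (fA t) = E ⟨t, ht⟩ := by
      rw [hE, projIcc_of_mem hpi ⟨fA_nonneg t, fA_le_two t⟩]
    simp only [h1, Homeomorph.symm_apply_apply]
  · intro χ hχ
    have h1 : (f (E.symm (projIcc 0 (2 * π) hpi χ)) : ℝ) = χ := by
      rw [← hE, Homeomorph.apply_symm_apply, projIcc_of_mem hpi hχ]
    exact h1

/-- inverse function of `fA` -/
noncomputable def tinv : ℝ → ℝ := exists_tinv.choose

theorem tinv_cont : Continuous tinv := exists_tinv.choose_spec.1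
theorem tinv_mem (χ : ℝ) : tinv χ ∈ Icc (1 : ℝ) 9 := exists_tinv.choose_spec.2.1 χ
theorem tinv_fA {t : ℝ} (h : t ∈ Icc (1 : ℝ) 9) : tinv (fA t) = t :=
  exists_tinv.choose_spec.2.2.1 t h
theorem fA_tinv {χ : ℝ} (h : χ ∈ Icc 0 (2 * π)) : fA (tinv χ) = χ :=
  exists_tinv.choose_spec.2.2.2 χ h

/-- the radius function -/
noncomputable def Mf (χ : ℝ) : ℝ := √(tinv χ) * fN (tinv χ) / 64

theorem fN_ge (t : ℝ) : 1 / 2 ≤ fN t := by
  unfold fN
  have h1 := STn (t - 1)
  have h2 := STn (4 - t)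
  have h3 := STn (t - 4)
  have h4 := STn (9 - t)
  have h5 := STl (t - 4)
  have h6 := STl (9 - t)
  have h7 : 0 ≤ ST (t - 1) * ST (4 - t) := mul_nonneg h1 h2
  have h8 : ST (t - 4) * ST (9 - t) ≤ 1 := mul_le_one₀ h5 h4 h6
  linarith

theorem fN_le_two {t : ℝ} (ht : t ≤ 4) : fN t ≤ 2 := by
  rw [fN, ST0 (x := t - 4) (by linarith)]
  have h8 : ST (t - 1) * ST (4 - t) ≤ 1 := mul_le_one₀ (STl _) (STn _) (STl _)
  linarith

theorem fN_le_one {t : ℝ} (ht : 4 ≤ t) : fN t ≤ 1 := by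
  rw [fN, ST0 (x := 4 - t) (by linarith)]
  have h8 : 0 ≤ ST (t - 4) * ST (9 - t) := mul_nonneg (STn _) (STn _)
  linarith

theorem fN_eq_one_le {t : ℝ} (ht : t ≤ 1) : fN t = 1 := by
  rw [fN, ST0 (x := t - 4) (by linarith), ST0 (x := t - 1) (by linarith)]
  ring

theorem fN_eq_one_ge {t : ℝ} (ht : 9 ≤ t) : fN t = 1 := by
  rw [fN, ST0 (x := 4 - t) (by linarith), ST0 (x := 9 - t) (by linarith)]
  ring

theorem sqrt_fN_le {t : ℝ} (ht : t ≤ 9) : √t * fN t ≤ 4 := by
  have h0 := Real.sqrt_nonneg t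
  have h1 := fN_ge t
  rcases le_total t 4 with h | h
  · have h2 : √t ≤ 2 := by
      rw [show (2 : ℝ) = √4 by rw [show (4 : ℝ) = 2 ^ 2 by norm_num, Real.sqrt_sq (by norm_num)]]
      exact Real.sqrt_le_sqrt h
    have h3 := fN_le_two h
    nlinarith
  · have h2 : √t ≤ 3 := by
      rw [show (3 : ℝ) = √9 by rw [show (9 : ℝ) = 3 ^ 2 by norm_num, Real.sqrt_sq (by norm_num)]]
      exact Real.sqrt_le_sqrt ht
    have h3 := fN_le_one h
    nlinarith

theorem Mf_cont : Continuous Mf :=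
  ((Real.continuous_sqrt.comp tinv_cont).mul (fN_cont.comp tinv_cont)).div_const 64

theorem Mf_pos (χ : ℝ) : 0 < Mf χ := by
  unfold Mf
  have h1 := (tinv_mem χ).1
  have h2 := fN_ge (tinv χ)
  have h3 : 0 < √(tinv χ) := Real.sqrt_pos.mpr (by linarith)
  have h4 : 0 < fN (tinv χ) := by linarith
  positivity

theorem Mf_le (χ : ℝ) : Mf χ ≤ 1 / 16 := by
  unfold Mf
  have := sqrt_fN_le (tinv_mem χ).2
  linarith

theorem Mf_fA {t : ℝ} (h : t ∈ Icc (1 : ℝ) 9) : Mf (fA t) = √t * fN t / 64 := by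
  rw [Mf, tinv_fA h]

theorem Mf_zero : Mf 0 = 3 / 64 := by
  have h := Mf_fA (t := 9) ⟨by norm_num, le_rfl⟩
  rw [fA_ge le_rfl, fN_eq_one_ge le_rfl, show (9 : ℝ) = 3 ^ 2 by norm_num,
    Real.sqrt_sq (by norm_num)] at h
  rw [h]
  norm_num

theorem Mf_two_pi : Mf (2 * π) = 1 / 64 := by
  have h := Mf_fA (t := 1) ⟨le_rfl, by norm_num⟩
  rw [fA_le le_rfl, fN_eq_one_le le_rfl, Real.sqrt_one] at h
  rw [h]
  norm_num

theorem Mf_good : Good Mf where
  cont := Mf_cont
  pos := Mf_pos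
  lt t := by
    have := Mf_le t
    linarith
  ab := by
    have h1 : fA (13 / 2) = π / 2 := by
      rw [fA, ST0 (x := (4 - 13 / 2) / 3) (by norm_num),
        show ((9 : ℝ) - 13 / 2) / 5 = 1 / 2 by norm_num, ST_half]
      ring
    have h2 : fA (5 / 2) = 3 * π / 2 := by
      rw [fA, ST1 (x := (9 - 5 / 2) / 5) (by norm_num),
        show ((4 : ℝ) - 5 / 2) / 3 = 1 / 2 by norm_num, ST_half]
      ring
    have h3 : fN (13 / 2) = 1 / 2 := by
      rw [fN, ST0 (x := 4 - 13 / 2) (by norm_num), ST1 (x := 13 / 2 - 4) (by norm_num),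
        ST1 (x := 9 - 13 / 2) (by norm_num)]
      norm_num
    have h4 : fN (5 / 2) = 2 := by
      rw [fN, ST0 (x := 5 / 2 - 4) (by norm_num), ST1 (x := 5 / 2 - 1) (by norm_num),
        ST1 (x := 4 - 5 / 2) (by norm_num)]
      norm_num
    rw [← h1, ← h2, Mf_fA ⟨by norm_num, by norm_num⟩, Mf_fA ⟨by norm_num, by norm_num⟩, h3, h4]
    have h5 : √(13 / 2) ≤ 3 := by
      rw [show (3 : ℝ) = √9 by rw [show (9 : ℝ) = 3 ^ 2 by norm_num, Real.sqrt_sq (by norm_num)]]
      exact Real.sqrt_le_sqrt (by norm_num)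
    have h6 : 1 ≤ √(5 / 2) := by
      rw [show (1 : ℝ) = √1 by rw [Real.sqrt_one]]
      exact Real.sqrt_le_sqrt (by norm_num)
    linarith

end EQD.Bend
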