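/-
Module BEND of project EQD (MP_d3855f_gt), second part: the bending homeomorphism.
-/
import Pool.Agent.H65.EQD.Bend1

set_option autoImplicit false

open Real Set Topology

namespace EQD.Bend

/-- the factor of the bending -/
noncomputable def lamf (p : E4) : ℝ := ST (lat p - 1 / 4) * max 0 (min 1 (8 * p 3 - 2))

/-- the invariant linear form, positive part -/
noncomputable def kk (p : E4) : ℝ := max 0 (-(p 1 + 3 * p 2))

/-- sheared first coordinate -/
noncomputable def Yc (t : ℝ) (p : E4) : ℝ := p 1 + 3 * t / 4 * kk p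
/-- sheared second coordinate -/
noncomputable def Zc (t : ℝ) (p : E4) : ℝ := p 2 - t / 4 * kk p
/-- norm after shearing -/
noncomputable def Nc (t : ℝ) (p : E4) : ℝ := √(Yc t p ^ 2 + Zc t p ^ 2)
/-- norm before shearing -/
noncomputable def Rc (p : E4) : ℝ := √(p 1 ^ 2 + p 2 ^ 2)

/-- bending with parameter `t` -/
noncomputable def bd (t : ℝ) (p : E4) : E4 :=
  !₂[p 0, Rc p * Yc t p / Nc t p, Rc p * Zc t p / Nc t p, p 3]

theorem bd0 (t : ℝ) (p : E4) : bd t p 0 = p 0 := rfl
theorem bd1 (t : ℝ) (p : E4) : bd t p 1 = Rc p * Yc t p / Nc t p := rfl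
theorem bd2 (t : ℝ) (p : E4) : bd t p 2 = Rc p * Zc t p / Nc t p := rfl
theorem bd3 (t : ℝ) (p : E4) : bd t p 3 = p 3 := rfl

theorem ext4 {p q : E4} (h0 : p 0 = q 0) (h1 : p 1 = q 1) (h2 : p 2 = q 2) (h3 : p 3 = q 3) :
    p = q := by
  ext i
  fin_cases i
  · exact h0
  · exact h1
  · exact h2
  · exact h3

theorem Rc_sq (p : E4) : Rc p ^ 2 = p 1 ^ 2 + p 2 ^ 2 := Real.sq_sqrt (by positivity)
theorem Nc_sq (t : ℝ) (p : E4) : Nc t p ^ 2 = Yc t p ^ 2 + Zc t p ^ 2 := Real.sq_sqrt (by positivity)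
theorem Rc_nonneg (p : E4) : 0 ≤ Rc p := Real.sqrt_nonneg _
theorem Nc_nonneg (t : ℝ) (p : E4) : 0 ≤ Nc t p := Real.sqrt_nonneg _

theorem Nc_pos (t : ℝ) (p : E4) (h : Rc p ≠ 0) : 0 < Nc t p := by
  rcases (Nc_nonneg t p).eq_or_lt with h0 | h0
  · exfalso
    apply h
    have h1 := Nc_sq t p
    rw [← h0] at h1
    have hY : Yc t p = 0 := by nlinarith [sq_nonneg (Yc t p), sq_nonneg (Zc t p)]
    have hZ : Zc t p = 0 := by nlinarith [sq_nonneg (Yc t p), sq_nonneg (Zc t p)]
    have h2 : p 1 + 3 * p 2 = 0 := by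
      have : Yc t p + 3 * Zc t p = p 1 + 3 * p 2 := by
        unfold Yc Zc
        ring
      rw [← this, hY, hZ]
      ring
    have hk : kk p = 0 := by
      unfold kk
      rw [h2]
      simp
    rw [Yc, hk] at hY
    rw [Zc, hk] at hZ
    have h3 : p 1 = 0 := by linarith
    have h4 : p 2 = 0 := by linarith
    rw [Rc, h3, h4]
    simp
  · exact h0

theorem Rc_zero {p : E4} (h : Rc p = 0) : p 1 = 0 ∧ p 2 = 0 := by
  have h1 := Rc_sq p
  rw [h] at h1
  constructor <;> nlinarith [sq_nonneg (p 1), sq_nonneg (p 2)]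

theorem bd_Rc (t : ℝ) (p : E4) : Rc (bd t p) = Rc p := by
  by_cases h : Rc p = 0
  · have h1 : bd t p 1 = 0 := by rw [bd1, h]; simp
    have h2 : bd t p 2 = 0 := by rw [bd2, h]; simp
    rw [Rc, h1, h2, h]
    simp
  · have hN := Nc_pos t p h
    have h1 : (bd t p 1) ^ 2 + (bd t p 2) ^ 2 = Rc p ^ 2 := by
      rw [bd1, bd2, div_pow, div_pow, mul_pow, mul_pow, ← add_div, ← mul_add, ← Nc_sq]
      field_simp
    rw [Rc, h1, Real.sqrt_sq (Rc_nonneg p)]

theorem bd_rad (t : ℝ) (p : E4) : rad (bd t p) = rad p := by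
  have h1 := Rc_sq (bd t p)
  rw [bd_Rc, Rc_sq] at h1
  rw [rad, rad, bd0]
  congr 1
  linarith

theorem bd_lat (t : ℝ) (p : E4) : lat (bd t p) = lat p := by
  rw [lat, lat, bd_rad, bd0]

theorem bd_lamf (t : ℝ) (p : E4) : lamf (bd t p) = lamf p := by
  rw [lamf, lamf, bd_lat, bd3]

theorem bd_norm (t : ℝ) (p : E4) : ‖bd t p‖ = ‖p‖ := by
  have h1 := Rc_sq (bd t p)
  rw [bd_Rc, Rc_sq] at h1
  rw [EuclideanSpace.norm_eq, EuclideanSpace.norm_eq]
  congr 1
  simp only [Fin.sum_univ_four, Real.norm_eq_abs, sq_abs]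
  rw [bd0, bd3]
  linarith

/-- homogeneity -/
theorem bd_of_scale (t : ℝ) (p : E4) (c : ℝ) (hc : 0 ≤ c) (u v : ℝ) (h1 : p 1 = c * u)
    (h2 : p 2 = c * v) :
    bd t p 1 = c * √(u ^ 2 + v ^ 2) * (u + 3 * t / 4 * max 0 (-(u + 3 * v))) /
      √((u + 3 * t / 4 * max 0 (-(u + 3 * v))) ^ 2 + (v - t / 4 * max 0 (-(u + 3 * v))) ^ 2) ∧
    bd t p 2 = c * √(u ^ 2 + v ^ 2) * (v - t / 4 * max 0 (-(u + 3 * v))) /
      √((u + 3 * t / 4 * max 0 (-(u + 3 * v))) ^ 2 + (v - t / 4 * max 0 (-(u + 3 * v))) ^ 2) := by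
  have hk : kk p = c * max 0 (-(u + 3 * v)) := by
    unfold kk
    rw [h1, h2, mul_max_of_nonneg _ _ hc, mul_zero]
    congr 1
    ring
  set m := max 0 (-(u + 3 * v)) with hm
  have hY : Yc t p = c * (u + 3 * t / 4 * m) := by
    rw [Yc, hk, h1]
    ring
  have hZ : Zc t p = c * (v - t / 4 * m) := by
    rw [Zc, hk, h2]
    ring
  have hR : Rc p = c * √(u ^ 2 + v ^ 2) := by
    rw [Rc, h1, h2, mul_pow, mul_pow, ← mul_add, Real.sqrt_mul (by positivity), Real.sqrt_sq hc]
  have hN : Nc t p = c * √((u + 3 * t / 4 * m) ^ 2 + (v - t / 4 * m) ^ 2) := by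
    rw [Nc, hY, hZ, mul_pow, mul_pow, ← mul_add, Real.sqrt_mul (by positivity), Real.sqrt_sq hc]
  rcases hc.eq_or_lt with h0 | h0
  · rw [bd1, bd2, hR, ← h0]
    simp
  · constructor
    · rw [bd1, hY, hR, hN]
      rw [show c * √(u ^ 2 + v ^ 2) * (c * (u + 3 * t / 4 * m)) =
        c * (c * √(u ^ 2 + v ^ 2) * (u + 3 * t / 4 * m)) by ring,
        mul_div_mul_left _ _ h0.ne']
    · rw [bd2, hZ, hR, hN]
      rw [show c * √(u ^ 2 + v ^ 2) * (c * (v - t / 4 * m)) =
        c * (c * √(u ^ 2 + v ^ 2) * (v - t / 4 * m)) by ring,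
        mul_div_mul_left _ _ h0.ne']

theorem bd_zero (p : E4) : bd 0 p = p := by
  by_cases h : Rc p = 0
  · obtain ⟨h1, h2⟩ := Rc_zero h
    refine ext4 rfl ?_ ?_ rfl
    · rw [bd1, h, h1]; simp
    · rw [bd2, h, h2]; simp
  · have hY : Yc 0 p = p 1 := by rw [Yc]; ring
    have hZ : Zc 0 p = p 2 := by rw [Zc]; ring
    have hN : Nc 0 p = Rc p := by rw [Nc, hY, hZ, Rc]
    refine ext4 rfl ?_ ?_ rfl
    · rw [bd1, hY, hN]; field_simp
    · rw [bd2, hZ, hN]; field_simp

theorem bd_of_kk (t : ℝ) (p : E4) (h : kk p = 0) : bd t p = p := by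
  have hb := bd_zero p
  have hY : Yc t p = Yc 0 p := by rw [Yc, Yc, h]; ring
  have hZ : Zc t p = Zc 0 p := by rw [Zc, Zc, h]; ring
  have hN : Nc t p = Nc 0 p := by rw [Nc, Nc, hY, hZ]
  rw [bd, hY, hZ, hN]
  exact hb

theorem bd_inv (t : ℝ) (p : E4) : bd (-t) (bd t p) = p := by
  by_cases h : Rc p = 0
  · obtain ⟨h1, h2⟩ := Rc_zero h
    have hr : Rc (bd t p) = 0 := by rw [bd_Rc, h]
    refine ext4 rfl ?_ ?_ rfl
    · rw [bd1, hr, h1]; simp
    · rw [bd2, hr, h2]; simp
  · have hN := Nc_pos t p h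
    have hR : 0 < Rc p := lt_of_le_of_ne (Rc_nonneg p) (Ne.symm h)
    set c := Rc p / Nc t p with hc
    have hc0 : 0 < c := by positivity
    have h1 : bd t p 1 = c * Yc t p := by rw [bd1, hc]; ring
    have h2 : bd t p 2 = c * Zc t p := by rw [bd2, hc]; ring
    have hk : kk (bd t p) = c * kk p := by
      unfold kk
      rw [h1, h2, mul_max_of_nonneg _ _ hc0.le, mul_zero]
      congr 1
      unfold Yc Zc
      ring
    have hY : Yc (-t) (bd t p) = c * p 1 := by
      rw [Yc, hk, h1, Yc]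
      ring
    have hZ : Zc (-t) (bd t p) = c * p 2 := by
      rw [Zc, hk, h2, Zc]
      ring
    have hNN : Nc (-t) (bd t p) = c * Rc p := by
      rw [Nc, hY, hZ, mul_pow, mul_pow, ← mul_add, Real.sqrt_mul (by positivity),
        Real.sqrt_sq hc0.le, Rc]
    refine ext4 rfl ?_ ?_ rfl
    · rw [bd1, hY, hNN, bd_Rc]
      field_simp
    · rw [bd2, hZ, hNN, bd_Rc]
      field_simp

theorem rad_cont : Continuous rad := by
  unfold rad
  fun_prop

theorem lat_contAt {p : E4} (h : rad p ≠ 0) : ContinuousAt lat p := by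
  unfold lat
  have h1 : ContinuousAt (fun p : E4 => p 0 / rad p) p :=
    ContinuousAt.div (by fun_prop) rad_cont.continuousAt h
  exact Real.continuous_arcsin.continuousAt.comp h1

theorem lamf_contAt {p : E4} (h : rad p ≠ 0) : ContinuousAt lamf p := by
  unfold lamf
  have h1 : ContinuousAt (fun p : E4 => ST (lat p - 1 / 4)) p :=
    Real.smoothTransition.continuous.continuousAt.comp ((lat_contAt h).sub continuousAt_const)
  exact h1.mul (by fun_prop)

/-- the bending map and its inverse -/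
noncomputable def bm (σ : ℝ) (p : E4) : E4 := bd (σ * lamf p) p

theorem rad_of_Rc {p : E4} (h : Rc p ≠ 0) : rad p ≠ 0 := by
  intro h0
  apply h
  have h1 : p 0 ^ 2 + p 1 ^ 2 + p 2 ^ 2 = 0 := by
    have : rad p ^ 2 = p 0 ^ 2 + p 1 ^ 2 + p 2 ^ 2 := Real.sq_sqrt (by positivity)
    rw [← this, h0]
    ring
  have h2 : p 1 ^ 2 + p 2 ^ 2 = 0 := by
    nlinarith [sq_nonneg (p 0), sq_nonneg (p 1), sq_nonneg (p 2)]
  rw [Rc, h2, Real.sqrt_zero]

theorem bm_cont (σ : ℝ) : Continuous (bm σ) := by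
  have hRc : Continuous Rc := by
    unfold Rc
    fun_prop
  have hkk : Continuous kk := by
    unfold kk
    fun_prop
  rw [continuous_iff_continuousAt]
  intro p
  have key : ∀ i : Fin 4, ContinuousAt (fun q => bm σ q i) p := by
    intro i
    by_cases h : Rc p = 0
    · -- at the plane y = z = 0
      have hbound : ∀ (F : E4 → ℝ), (∀ q, |F q| ≤ Rc q) → ContinuousAt F p := by
        intro F hF
        have hFp : F p = 0 := by
          have := hF p
          rw [h] at this
          exact abs_nonpos_iff.mp this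
        rw [ContinuousAt, hFp]
        refine squeeze_zero_norm hF ?_
        have := hRc.tendsto p
        rw [h] at this
        exact this
      have hle : ∀ (q : E4), |bm σ q 1| ≤ Rc q ∧ |bm σ q 2| ≤ Rc q := by
        intro q
        have h1 := Rc_sq (bm σ q)
        rw [show Rc (bm σ q) = Rc q from bd_Rc _ q] at h1
        constructor
        · apply abs_le_of_sq_le_sq _ (Rc_nonneg q)
          nlinarith [sq_nonneg (bm σ q 2)]
        · apply abs_le_of_sq_le_sq _ (Rc_nonneg q)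
          nlinarith [sq_nonneg (bm σ q 1)]
      fin_cases i
      · change ContinuousAt (fun q : E4 => q 0) p
        fun_prop
      · exact hbound _ fun q => (hle q).1
      · exact hbound _ fun q => (hle q).2
      · change ContinuousAt (fun q : E4 => q 3) p
        fun_prop
    · have hr := rad_of_Rc h
      have hl : ContinuousAt (fun q => σ * lamf q) p := continuousAt_const.mul (lamf_contAt hr)
      have hY : ContinuousAt (fun q => Yc (σ * lamf q) q) p := by
        unfold Yc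
        exact ContinuousAt.add (by fun_prop)
          (((continuousAt_const.mul hl).div_const 4).mul hkk.continuousAt)
      have hZ : ContinuousAt (fun q => Zc (σ * lamf q) q) p := by
        unfold Zc
        exact ContinuousAt.sub (by fun_prop) ((hl.div_const 4).mul hkk.continuousAt)
      have hN : ContinuousAt (fun q => Nc (σ * lamf q) q) p := by
        unfold Nc
        exact Real.continuous_sqrt.continuousAt.comp ((hY.pow 2).add (hZ.pow 2))
      have hNe : Nc (σ * lamf p) p ≠ 0 := (Nc_pos _ p h).ne'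
      fin_cases i
      · change ContinuousAt (fun q : E4 => q 0) p
        fun_prop
      · change ContinuousAt (fun q : E4 => Rc q * Yc (σ * lamf q) q / Nc (σ * lamf q) q) p
        exact (hRc.continuousAt.mul hY).div hN hNe
      · change ContinuousAt (fun q : E4 => Rc q * Zc (σ * lamf q) q / Nc (σ * lamf q) q) p
        exact (hRc.continuousAt.mul hZ).div hN hNe
      · change ContinuousAt (fun q : E4 => q 3) p
        fun_prop
  have h2 : ContinuousAt (fun q => WithLp.ofLp (bm σ q)) p := continuousAt_pi.mpr key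
  have h3 : bm σ = fun q => WithLp.toLp 2 (WithLp.ofLp (bm σ q)) := rfl
  rw [h3]
  exact (PiLp.continuous_toLp 2 _).continuousAt.comp h2

theorem bm_inv (σ : ℝ) (p : E4) : bm (-σ) (bm σ p) = p := by
  unfold bm
  rw [bd_lamf, neg_mul]
  exact bd_inv _ p

/-- the bending homeomorphism -/
noncomputable def Bh : E4 ≃ₜ E4 where
  toFun := bm 1
  invFun := bm (-1)
  left_inv p := bm_inv 1 p
  right_inv p := by
    have := bm_inv (-1) p
    rwa [neg_neg] at this
  continuous_toFun := bm_cont 1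
  continuous_invFun := bm_cont (-1)

theorem Bh_apply (p : E4) : Bh p = bd (lamf p) p := by
  change bm 1 p = _
  rw [bm, one_mul]

theorem lamf_zero_of_x {p : E4} (h : p 0 ≤ 0) : lamf p = 0 := by
  have h1 : lat p ≤ 0 := by
    unfold lat
    apply Real.arcsin_nonpos.mpr
    exact div_nonpos_of_nonpos_of_nonneg h (Real.sqrt_nonneg _)
  rw [lamf, ST0 (by linarith), zero_mul]

theorem lamf_zero_of_s {p : E4} (h : p 3 ≤ 1 / 4) : lamf p = 0 := by
  have h1 : max 0 (min 1 (8 * p 3 - 2)) = 0 := by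
    apply max_eq_left
    apply min_le_iff.mpr
    right
    linarith
  rw [lamf, h1, mul_zero]

theorem Bh_of_lamf {p : E4} (h : lamf p = 0) : Bh p = p := by
  rw [Bh_apply, h, bd_zero]

end EQD.Bend
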