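/-
Module BEND of project EQD (MP_d3855f_gt), third part: the symmetric homeomorphism.
-/
import Pool.Agent.H65.EQD.Bend2

set_option autoImplicit false

open Real Set Topology

namespace EQD.Bend

theorem rho0 (p : E4) : rho p 0 = -p 0 := rfl
theorem rho1 (p : E4) : rho p 1 = -p 1 := rfl
theorem rho2 (p : E4) : rho p 2 = -p 2 := rfl
theorem rho3 (p : E4) : rho p 3 = p 3 := rfl
theorem rhp0 (p : E4) : rhp p 0 = -p 0 := rfl
theorem rhp1 (p : E4) : rhp p 1 = p 1 := rfl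
theorem rhp2 (p : E4) : rhp p 2 = -p 2 := rfl
theorem rhp3 (p : E4) : rhp p 3 = -p 3 := rfl

theorem rho_rho (p : E4) : rho (rho p) = p := by
  refine ext4 ?_ ?_ ?_ ?_
  · rw [rho0, rho0]; ring
  · rw [rho1, rho1]; ring
  · rw [rho2, rho2]; ring
  · rw [rho3, rho3]

theorem rhp_rhp (p : E4) : rhp (rhp p) = p := by
  refine ext4 ?_ ?_ ?_ ?_
  · rw [rhp0, rhp0]; ring
  · rw [rhp1, rhp1]
  · rw [rhp2, rhp2]; ring
  · rw [rhp3, rhp3]; ring

theorem rho_rhp (p : E4) : rho (rhp p) = rhp (rho p) := by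
  refine ext4 ?_ ?_ ?_ ?_
  · rw [rho0, rhp0, rhp0, rho0]
  · rw [rho1, rhp1, rhp1, rho1]
  · rw [rho2, rhp2, rhp2, rho2]
  · rw [rho3, rhp3, rhp3, rho3]

theorem cont_of4 {F : E4 → E4} (h : ∀ i, Continuous (fun q => F q i)) : Continuous F := by
  have h2 : Continuous (fun q => WithLp.ofLp (F q)) := continuous_pi h
  have h3 : F = fun q => WithLp.toLp 2 (WithLp.ofLp (F q)) := rfl
  rw [h3]
  exact (PiLp.continuous_toLp 2 _).comp h2

theorem rho_cont : Continuous rho := by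
  refine cont_of4 fun i => ?_
  fin_cases i
  · change Continuous fun q : E4 => -q 0
    fun_prop
  · change Continuous fun q : E4 => -q 1
    fun_prop
  · change Continuous fun q : E4 => -q 2
    fun_prop
  · change Continuous fun q : E4 => q 3
    fun_prop

theorem rhp_cont : Continuous rhp := by
  refine cont_of4 fun i => ?_
  fin_cases i
  · change Continuous fun q : E4 => -q 0
    fun_prop
  · change Continuous fun q : E4 => q 1
    fun_prop
  · change Continuous fun q : E4 => -q 2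
    fun_prop
  · change Continuous fun q : E4 => -q 3
    fun_prop

/-- `rho` as a homeomorphism -/
def rhoH : E4 ≃ₜ E4 where
  toFun := rho
  invFun := rho
  left_inv := rho_rho
  right_inv := rho_rho
  continuous_toFun := rho_cont
  continuous_invFun := rho_cont

/-- `rhp` as a homeomorphism -/
def rhpH : E4 ≃ₜ E4 where
  toFun := rhp
  invFun := rhp
  left_inv := rhp_rhp
  right_inv := rhp_rhp
  continuous_toFun := rhp_cont
  continuous_invFun := rhp_cont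

/-- the symmetric bending homeomorphism -/
noncomputable def Gh : E4 ≃ₜ E4 :=
  (((rhoH.trans (rhpH.trans (Bh.trans (rhpH.trans rhoH)))).trans
    (rhpH.trans (Bh.trans rhpH))).trans
    (rhoH.trans (Bh.trans rhoH))).trans Bh

theorem Gh_apply (p : E4) : Gh p =
    Bh (rho (Bh (rho (rhp (Bh (rhp (rho (rhp (Bh (rhp (rho p))))))))))) := rfl

theorem Bh0 (p : E4) : Bh p 0 = p 0 := by rw [Bh_apply]; rfl
theorem Bh3 (p : E4) : Bh p 3 = p 3 := by rw [Bh_apply]; rfl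

theorem Bh_id_x {p : E4} (h : p 0 ≤ 0) : Bh p = p := Bh_of_lamf (lamf_zero_of_x h)
theorem Bh_id_s {p : E4} (h : p 3 ≤ 0) : Bh p = p := Bh_of_lamf (lamf_zero_of_s (by linarith))

/-- the four regions -/
theorem Gh_pp {p : E4} (hx : 0 ≤ p 0) (hs : 0 ≤ p 3) : Gh p = Bh p := by
  rw [Gh_apply]
  rw [Bh_id_s (p := rhp (rho p)) (by rw [rhp3, rho3]; linarith), rhp_rhp, rho_rho]
  rw [Bh_id_x (p := rhp p) (by rw [rhp0]; linarith), rhp_rhp]
  rw [Bh_id_x (p := rho p) (by rw [rho0]; linarith), rho_rho]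

theorem Gh_np {p : E4} (hx : p 0 ≤ 0) (hs : 0 ≤ p 3) : Gh p = rho (Bh (rho p)) := by
  rw [Gh_apply]
  rw [Bh_id_s (p := rhp (rho p)) (by rw [rhp3, rho3]; linarith), rhp_rhp, rho_rho]
  rw [Bh_id_s (p := rhp p) (by rw [rhp3]; linarith), rhp_rhp]
  rw [Bh_id_x (p := rho (Bh (rho p))) (by rw [rho0, Bh0, rho0]; linarith)]

theorem Gh_nn {p : E4} (hx : p 0 ≤ 0) (hs : p 3 ≤ 0) : Gh p = rhp (Bh (rhp p)) := by
  rw [Gh_apply]
  rw [Bh_id_x (p := rhp (rho p)) (by rw [rhp0, rho0]; linarith), rhp_rhp, rho_rho]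
  rw [Bh_id_s (p := rho (rhp (Bh (rhp p)))) (by rw [rho3, rhp3, Bh3, rhp3]; linarith), rho_rho]
  rw [Bh_id_s (p := rhp (Bh (rhp p))) (by rw [rhp3, Bh3, rhp3]; linarith)]

theorem Gh_pn {p : E4} (hx : 0 ≤ p 0) (hs : p 3 ≤ 0) :
    Gh p = rho (rhp (Bh (rhp (rho p)))) := by
  rw [Gh_apply]
  rw [Bh_id_x (p := rhp (rho (rhp (Bh (rhp (rho p))))))
    (by rw [rhp0, rho0, rhp0, Bh0, rhp0, rho0]; linarith), rhp_rhp, rho_rho]
  rw [Bh_id_s (p := rhp (Bh (rhp (rho p)))) (by rw [rhp3, Bh3, rhp3, rho3]; linarith)]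
  rw [Bh_id_s (p := rho (rhp (Bh (rhp (rho p))))) (by rw [rho3, rhp3, Bh3, rhp3, rho3]; linarith)]

theorem Gh_rho (p : E4) : Gh (rho p) = rho (Gh p) := by
  rcases le_total 0 (p 0) with hx | hx <;> rcases le_total 0 (p 3) with hs | hs
  · rw [Gh_pp hx hs, Gh_np (p := rho p) (by rw [rho0]; linarith) (by rw [rho3]; exact hs), rho_rho]
  · rw [Gh_pn hx hs, Gh_nn (p := rho p) (by rw [rho0]; linarith) (by rw [rho3]; exact hs), rho_rho]
  · rw [Gh_np hx hs, Gh_pp (p := rho p) (by rw [rho0]; linarith) (by rw [rho3]; exact hs), rho_rho]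
  · rw [Gh_nn hx hs, Gh_pn (p := rho p) (by rw [rho0]; linarith) (by rw [rho3]; exact hs), rho_rho]

theorem Gh_rhp (p : E4) : Gh (rhp p) = rhp (Gh p) := by
  rcases le_total 0 (p 0) with hx | hx <;> rcases le_total 0 (p 3) with hs | hs
  · rw [Gh_pp hx hs, Gh_nn (p := rhp p) (by rw [rhp0]; linarith) (by rw [rhp3]; linarith), rhp_rhp]
  · rw [Gh_pn hx hs, Gh_np (p := rhp p) (by rw [rhp0]; linarith) (by rw [rhp3]; linarith),
      ← rho_rhp, ← rho_rhp, rhp_rhp]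
  · rw [Gh_np hx hs, Gh_pn (p := rhp p) (by rw [rhp0]; linarith) (by rw [rhp3]; linarith),
      rho_rhp (rhp p) |>.symm, rhp_rhp, rho_rhp]
  · rw [Gh_nn hx hs, Gh_pp (p := rhp p) (by rw [rhp0]; linarith) (by rw [rhp3]; linarith), rhp_rhp]

theorem norm_sq4 (p : E4) : ‖p‖ ^ 2 = p 0 ^ 2 + p 1 ^ 2 + p 2 ^ 2 + p 3 ^ 2 := by
  rw [EuclideanSpace.norm_sq_eq]
  simp only [Fin.sum_univ_four, Real.norm_eq_abs, sq_abs]

theorem norm_eq_of_sq {p q : E4} (h : ‖p‖ ^ 2 = ‖q‖ ^ 2) : ‖p‖ = ‖q‖ :=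
  (sq_eq_sq₀ (norm_nonneg _) (norm_nonneg _)).mp h

theorem rho_norm (p : E4) : ‖rho p‖ = ‖p‖ := by
  apply norm_eq_of_sq
  rw [norm_sq4, norm_sq4, rho0, rho1, rho2, rho3]
  ring

theorem rhp_norm (p : E4) : ‖rhp p‖ = ‖p‖ := by
  apply norm_eq_of_sq
  rw [norm_sq4, norm_sq4, rhp0, rhp1, rhp2, rhp3]
  ring

theorem Bh_norm (p : E4) : ‖Bh p‖ = ‖p‖ := by
  rw [Bh_apply, bd_norm]

theorem Gh_norm (p : E4) : ‖Gh p‖ = ‖p‖ := by
  rw [Gh_apply]
  simp only [Bh_norm, rho_norm, rhp_norm]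

theorem Gh_s0 {p : E4} (h : p 3 = 0) : Gh p = p := by
  rcases le_total 0 (p 0) with hx | hx
  · rw [Gh_pp hx h.ge, Bh_id_s h.le]
  · rw [Gh_np hx h.ge, Bh_id_s (p := rho p) (by rw [rho3]; exact h.le), rho_rho]

end EQD.Bend
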