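/-
Module BEND of project EQD (MP_d3855f_gt), fourth part: the page points of the finger.
-/
import Pool.Agent.H65.EQD.Bend3

set_option autoImplicit false

open Real Set Topology

namespace EQD.Bend

/-- radius of the finger point -/
noncomputable def rr (a b : ℝ) : ℝ := 1 / 4 + fN (ft a b) * (a - 1 / 4)
/-- height of the finger point -/
noncomputable def ss (a b : ℝ) : ℝ := 1 / 2 + fN (ft a b) * (b - 1 / 2)
/-- angle of the finger point -/
noncomputable def ch (a b : ℝ) : ℝ := fA (ft a b)

/-- the point of the pages with parameters `r, χ, s` -/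
noncomputable def qq (r χ s : ℝ) : E4 :=
  if χ ≤ π / 2 then !₂[-(r * sin χ), r * cos χ, 0, s]
  else if χ ≤ 3 * π / 2 then !₂[-(r * sin χ), r * cos χ / √2, r * cos χ / √2, s]
  else !₂[-(r * sin χ), -(r * cos χ / √2), r * cos χ / √2, s]

/-- the smooth point with parameters `r, χ, s` -/
noncomputable def eq' (r χ s : ℝ) : E4 :=
  !₂[-(r * sin χ), r * cos χ * (fV1 (fc χ) / fVn (fc χ)),
    r * cos χ * (fV2 (fc χ) / fVn (fc χ)), s]

theorem eP_eq (a b : ℝ) : eP a b = eq' (rr a b) (ch a b) (ss a b) := rfl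

theorem sq2 : √2 ^ 2 = (2 : ℝ) := Real.sq_sqrt (by norm_num)
theorem sq2pos : 0 < √(2 : ℝ) := Real.sqrt_pos.mpr (by norm_num)

theorem qq0 (r χ s : ℝ) : qq r χ s 0 = -(r * sin χ) := by
  unfold qq
  split_ifs <;> rfl

theorem qq3 (r χ s : ℝ) : qq r χ s 3 = s := by
  unfold qq
  split_ifs <;> rfl

theorem qq12 (r χ s : ℝ) : (qq r χ s 1) ^ 2 + (qq r χ s 2) ^ 2 = (r * cos χ) ^ 2 := by
  have h := sq2
  unfold qq
  split_ifs
  · change (r * cos χ) ^ 2 + (0 : ℝ) ^ 2 = _
    ring
  · change (r * cos χ / √2) ^ 2 + (r * cos χ / √2) ^ 2 = _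
    rw [div_pow, h]
    ring
  · change (-(r * cos χ / √2)) ^ 2 + (r * cos χ / √2) ^ 2 = _
    rw [neg_sq, div_pow, h]
    ring

theorem rad_polar {p : E4} {r χ : ℝ} (hr : 0 ≤ r) (h0 : p 0 = -(r * sin χ))
    (h12 : (p 1) ^ 2 + (p 2) ^ 2 = (r * cos χ) ^ 2) : rad p = r := by
  rw [rad]
  have : p 0 ^ 2 + p 1 ^ 2 + p 2 ^ 2 = r ^ 2 := by
    rw [h0]
    have := Real.sin_sq_add_cos_sq χ
    linear_combination h12 + r ^ 2 * this
  rw [this, Real.sqrt_sq hr]

theorem lat_polar {p : E4} {r χ : ℝ} (hr : 0 < r) (h0 : p 0 = -(r * sin χ))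
    (h12 : (p 1) ^ 2 + (p 2) ^ 2 = (r * cos χ) ^ 2) : lat p = arcsin (-sin χ) := by
  rw [lat, rad_polar hr.le h0 h12, h0]
  congr 1
  field_simp

theorem rad_qq {r χ s : ℝ} (hr : 0 ≤ r) : rad (qq r χ s) = r :=
  rad_polar hr (qq0 r χ s) (qq12 r χ s)

theorem lat_qq {r χ s : ℝ} (hr : 0 < r) : lat (qq r χ s) = arcsin (-sin χ) :=
  lat_polar hr (qq0 r χ s) (qq12 r χ s)

theorem rad_rho (p : E4) : rad (rho p) = rad p := by
  rw [rad, rad, rho0, rho1, rho2]
  congr 1
  ring

theorem lat_rho (p : E4) : lat (rho p) = -lat p := by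
  rw [lat, lat, rad_rho, rho0, neg_div, Real.arcsin_neg]

theorem rad_rhp (p : E4) : rad (rhp p) = rad p := by
  rw [rad, rad, rhp0, rhp1, rhp2]
  congr 1
  ring

theorem lat_rhp (p : E4) : lat (rhp p) = -lat p := by
  rw [lat, lat, rad_rhp, rhp0, neg_div, Real.arcsin_neg]

theorem clamp_one {p : E4} (h : 3 / 8 ≤ p 3) : max 0 (min 1 (8 * p 3 - 2)) = 1 := by
  rw [min_eq_left (by linarith)]
  norm_num

theorem arcsin_neg_sin {χ : ℝ} (h0 : 0 ≤ χ) (h1 : χ ≤ π / 2) : arcsin (-sin χ) = -χ := by
  rw [Real.arcsin_neg, Real.arcsin_sin (by linarith) h1]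

theorem arcsin_neg_sin' {χ : ℝ} (h0 : π / 2 ≤ χ) (h1 : χ ≤ 3 * π / 2) :
    arcsin (-sin χ) = χ - π := by
  rw [← Real.sin_sub_pi, Real.arcsin_sin (by linarith) (by linarith)]

theorem arcsin_neg_sin'' {χ : ℝ} (h0 : 3 * π / 2 ≤ χ) (h1 : χ ≤ 2 * π) :
    arcsin (-sin χ) = 2 * π - χ := by
  rw [← Real.sin_two_pi_sub, Real.arcsin_sin (by linarith) (by linarith [Real.pi_pos])]

theorem fVn_zero : fVn 0 = 1 := by
  rw [fVn, fV1, fV2]
  norm_num

theorem fc_zero {χ : ℝ} (h : χ ≤ 1 / 4) : fc χ = 0 := by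
  have := Real.pi_pos
  rw [fc, ST0 (by linarith), ST0 (by linarith)]
  ring

/-- the smooth point and the page point correspond -/
theorem G_qq {r χ s : ℝ} (hr : 0 < r) (hs : 3 / 8 ≤ s) (h0 : 0 ≤ χ) (h1 : χ ≤ 2 * π) :
    Gh (qq r χ s) = eq' r χ s := by
  have hpi := Real.pi_pos
  have hpi3 := Real.pi_gt_three
  have hq3 := qq3 r χ s
  have hq0 := qq0 r χ s
  by_cases hA : χ ≤ π / 2
  · -- page 0
    have hsin : 0 ≤ sin χ := Real.sin_nonneg_of_nonneg_of_le_pi h0 (by linarith)
    have hcos : 0 ≤ cos χ := Real.cos_nonneg_of_neg_pi_div_two_le_of_le (by linarith) hA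
    have hx : qq r χ s 0 ≤ 0 := by
      rw [hq0]
      have : 0 ≤ r * sin χ := by positivity
      linarith
    rw [Gh_np hx (by rw [hq3]; linarith), Bh_apply]
    have hl : lamf (rho (qq r χ s)) = fc χ := by
      rw [lamf, lat_rho, lat_qq hr, clamp_one (by rw [rho3, hq3]; exact hs),
        arcsin_neg_sin h0 hA, fc, ST0 (x := χ - π - 1 / 4) (by linarith)]
      ring_nf
    rw [hl]
    have hqe : qq r χ s = !₂[-(r * sin χ), r * cos χ, 0, s] := by rw [qq, if_pos hA]
    have e1 : rho (qq r χ s) 1 = r * cos χ * (-1) := by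
      rw [rho1, hqe]
      change -(r * cos χ) = _
      ring
    have e2 : rho (qq r χ s) 2 = r * cos χ * 0 := by
      rw [rho2, hqe]
      change -(0 : ℝ) = _
      ring
    obtain ⟨b1, b2⟩ := bd_of_scale (fc χ) (rho (qq r χ s)) (r * cos χ) (by positivity) (-1) 0 e1 e2
    have hm : max 0 (-((-1 : ℝ) + 3 * 0)) = 1 := by norm_num
    rw [hm] at b1 b2
    have hN : √((-1 + 3 * fc χ / 4 * 1) ^ 2 + (0 - fc χ / 4 * 1) ^ 2) = fVn (fc χ) := by
      rw [fVn, fV1, fV2]
      congr 1
      ring
    have h1' : √((-1 : ℝ) ^ 2 + 0 ^ 2) = 1 := by norm_num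
    rw [hN, h1'] at b1 b2
    refine ext4 ?_ ?_ ?_ ?_
    · rw [rho0, bd0, rho0, hq0]
      change - -(-(r * sin χ)) = -(r * sin χ)
      ring
    · rw [rho1, b1]
      change _ = r * cos χ * (fV1 (fc χ) / fVn (fc χ))
      rw [fV1]
      ring
    · rw [rho2, b2]
      change _ = r * cos χ * (fV2 (fc χ) / fVn (fc χ))
      rw [fV2]
      ring
    · rw [rho3, bd3, rho3, hq3]
      rfl
  · push Not at hA
    by_cases hB : χ ≤ 3 * π / 2
    · -- page 4
      have hcos : cos χ ≤ 0 := Real.cos_nonpos_of_pi_div_two_le_of_le hA.le (by linarith)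
      have hqe : qq r χ s = !₂[-(r * sin χ), r * cos χ / √2, r * cos χ / √2, s] := by
        rw [qq, if_neg (not_le.mpr hA), if_pos hB]
      have q1 : qq r χ s 1 = r * cos χ / √2 := by rw [hqe]; rfl
      have q2 : qq r χ s 2 = r * cos χ / √2 := by rw [hqe]; rfl
      have hrc : 0 ≤ -(r * cos χ) := by nlinarith
      by_cases hC : χ ≤ π
      · have hsin : 0 ≤ sin χ := Real.sin_nonneg_of_nonneg_of_le_pi h0 hC
        have hx : qq r χ s 0 ≤ 0 := by
          rw [hq0]
          have : 0 ≤ r * sin χ := by positivity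
          linarith
        have hk : kk (rho (qq r χ s)) = 0 := by
          unfold kk
          rw [rho1, rho2, q1, q2]
          apply max_eq_left
          have : 0 ≤ -(r * cos χ) / √2 := by positivity
          have h5 : -(r * cos χ) / √2 = -(r * cos χ / √2) := by ring
          rw [h5] at this
          linarith
        rw [Gh_np hx (by rw [hq3]; linarith), Bh_apply, bd_of_kk _ _ hk, rho_rho]
        have hfc : fc χ = 1 := by
          rw [fc, ST1 (x := χ - 1 / 4) (by linarith), ST0 (x := χ - π - 1 / 4) (by linarith)]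
          ring
        have hv : fVn 1 = √2 / 4 := by
          rw [fVn, fV1, fV2]
          have : ((1 - 3 * 1 / 4) ^ 2 + (1 / 4) ^ 2 : ℝ) = (√2 / 4) ^ 2 := by
            rw [div_pow (√2), sq2]
            norm_num
          rw [this, Real.sqrt_sq (by positivity)]
        have h2 := sq2
        have h2' := sq2pos
        refine ext4 ?_ ?_ ?_ ?_
        · rw [hq0]; rfl
        · rw [q1]
          change _ = r * cos χ * (fV1 (fc χ) / fVn (fc χ))
          rw [hfc, hv, fV1]
          field_simp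
          norm_num
        · rw [q2]
          change _ = r * cos χ * (fV2 (fc χ) / fVn (fc χ))
          rw [hfc, hv, fV2]
          field_simp
        · rw [hq3]; rfl
      · push Not at hC
        have hsin : sin χ ≤ 0 := by
          have : 0 ≤ sin (χ - π) := Real.sin_nonneg_of_nonneg_of_le_pi (by linarith) (by linarith)
          rw [Real.sin_sub_pi] at this
          linarith
        have hx : 0 ≤ qq r χ s 0 := by
          rw [hq0]
          nlinarith
        rw [Gh_pp hx (by rw [hq3]; linarith), Bh_apply]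
        set t := ST (χ - π - 1 / 4) with ht
        have hl : lamf (qq r χ s) = t := by
          rw [lamf, lat_qq hr, clamp_one (by rw [hq3]; exact hs),
            arcsin_neg_sin' (by linarith) hB, mul_one]
        rw [hl]
        have hfc : fc χ = 1 + t := by
          rw [fc, ST1 (x := χ - 1 / 4) (by linarith)]
        have e1 : qq r χ s 1 = (-(r * cos χ) / √2) * (-1) := by
          rw [q1]; ring
        have e2 : qq r χ s 2 = (-(r * cos χ) / √2) * (-1) := by
          rw [q2]; ring
        obtain ⟨b1, b2⟩ := bd_of_scale t (qq r χ s) (-(r * cos χ) / √2) (by positivity) (-1) (-1)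
          e1 e2
        have hm : max 0 (-((-1 : ℝ) + 3 * (-1))) = 4 := by norm_num
        rw [hm] at b1 b2
        have hN : √((-1 + 3 * t / 4 * 4) ^ 2 + (-1 - t / 4 * 4) ^ 2) = 4 * fVn (1 + t) := by
          rw [fVn, fV1, fV2]
          have : ((-1 + 3 * t / 4 * 4) ^ 2 + (-1 - t / 4 * 4) ^ 2 : ℝ) =
              4 ^ 2 * ((1 - 3 * (1 + t) / 4) ^ 2 + ((1 + t) / 4) ^ 2) := by ring
          rw [this, Real.sqrt_mul (by positivity), Real.sqrt_sq (by norm_num)]
        have h1' : √((-1 : ℝ) ^ 2 + (-1) ^ 2) = √2 := by norm_num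
        rw [hN, h1'] at b1 b2
        have h2 := sq2pos
        have hcc : -(r * cos χ) / √2 * √2 = -(r * cos χ) := by field_simp
        rw [hcc] at b1 b2
        refine ext4 ?_ ?_ ?_ ?_
        · rw [bd0, hq0]; rfl
        · rw [b1]
          change _ = r * cos χ * (fV1 (fc χ) / fVn (fc χ))
          rw [hfc, fV1]
          by_cases hF : fVn (1 + t) = 0
          · rw [hF]; simp
          · field_simp
            ring
        · rw [b2]
          change _ = r * cos χ * (fV2 (fc χ) / fVn (fc χ))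
          rw [hfc, fV2]
          by_cases hF : fVn (1 + t) = 0
          · rw [hF]; simp
          · field_simp
            ring
        · rw [bd3, hq3]; rfl
    · push Not at hB
      have hcos : 0 ≤ cos χ := by
        have : 0 ≤ cos (2 * π - χ) :=
          Real.cos_nonneg_of_neg_pi_div_two_le_of_le (by linarith) (by linarith)
        rwa [Real.cos_two_pi_sub] at this
      have hsin : sin χ ≤ 0 := by
        have : 0 ≤ sin (2 * π - χ) := Real.sin_nonneg_of_nonneg_of_le_pi (by linarith) (by linarith)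
        rw [Real.sin_two_pi_sub] at this
        linarith
      have hx : 0 ≤ qq r χ s 0 := by
        rw [hq0]
        nlinarith
      have hqe : qq r χ s = !₂[-(r * sin χ), -(r * cos χ / √2), r * cos χ / √2, s] := by
        rw [qq, if_neg (not_le.mpr hA), if_neg (not_le.mpr hB)]
      have q1 : qq r χ s 1 = -(r * cos χ / √2) := by rw [hqe]; rfl
      have q2 : qq r χ s 2 = r * cos χ / √2 := by rw [hqe]; rfl
      have hk : kk (qq r χ s) = 0 := by
        unfold kk
        rw [q1, q2]
        apply max_eq_left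
        have : 0 ≤ r * cos χ / √2 := by positivity
        linarith
      rw [Gh_pp hx (by rw [hq3]; linarith), Bh_apply, bd_of_kk _ _ hk]
      have hfc : fc χ = 2 := by
        rw [fc, ST1 (x := χ - 1 / 4) (by linarith), ST1 (x := χ - π - 1 / 4) (by linarith)]
        norm_num
      have hv : fVn 2 = √2 / 2 := by
        rw [fVn, fV1, fV2]
        have : ((1 - 3 * 2 / 4) ^ 2 + (2 / 4) ^ 2 : ℝ) = (√2 / 2) ^ 2 := by
          rw [div_pow (√2), sq2]
          norm_num
        rw [this, Real.sqrt_sq (by positivity)]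
      have h2 := sq2
      have h2' := sq2pos
      refine ext4 ?_ ?_ ?_ ?_
      · rw [hq0]; rfl
      · rw [q1]
        change _ = r * cos χ * (fV1 (fc χ) / fVn (fc χ))
        rw [hfc, hv, fV1]
        field_simp
        ring
      · rw [q2]
        change _ = r * cos χ * (fV2 (fc χ) / fVn (fc χ))
        rw [hfc, hv, fV2]
        field_simp
        ring
      · rw [hq3]; rfl

end EQD.Bend
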