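/-
Module BEND of project EQD (MP_d3855f_gt), fifth part: the open book disk and the page points.
-/
import Pool.Agent.H65.EQD.Bend4

set_option autoImplicit false

open Real Set Topology

namespace EQD.Bend

/-! ### symmetries -/

theorem mp_rho (p : E4) : mp (rho p) = mp p := by rw [mp, mp, rad_rho, rho3]
theorem mm_rho (p : E4) : mm (rho p) = mm p := by rw [mm, mm, rad_rho, rho3]
theorem mp_rhp (p : E4) : mp (rhp p) = mm p := by
  rw [mp, mm, rad_rhp, rhp3]
  congr 1
  ring
theorem mm_rhp (p : E4) : mm (rhp p) = mp p := by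
  rw [mp, mm, rad_rhp, rhp3]
  congr 1
  ring

theorem Pg_rho {p : E4} {j : Fin 6} (h : p ∈ Pg j) : rho p ∈ Pg (j + 3) := by
  obtain ⟨h1, h2⟩ := h
  unfold ell at h1
  unfold dt at h2
  constructor
  · rw [ell, rho1, rho2]
    fin_cases j <;> simp [uy, uz] at h1 ⊢ <;> linarith
  · rw [dt, rho1, rho2]
    fin_cases j <;> simp [uy, uz] at h2 ⊢ <;> linarith

theorem Pg_rhp {p : E4} {j : Fin 6} (h : p ∈ Pg j) : rhp p ∈ Pg (-j) := by
  obtain ⟨h1, h2⟩ := h
  unfold ell at h1
  unfold dt at h2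
  constructor
  · rw [ell, rhp1, rhp2]
    fin_cases j <;> simp [uy, uz] at h1 ⊢ <;> linarith
  · rw [dt, rhp1, rhp2]
    fin_cases j <;> simp [uy, uz] at h2 ⊢ <;> linarith

theorem la_rho (p : E4) (j : Fin 6) : la (j + 3) (rho p) = la j p := by
  rw [la, la, lat_rho]
  fin_cases j <;> simp (decide := true)

theorem m1_rho (p : E4) (j : Fin 6) : m1 (j + 3) (rho p) = m1 j p := by
  rw [m1, m1, mp_rho, mm_rho]
  fin_cases j <;> simp (decide := true)

theorem m2_rho (p : E4) (j : Fin 6) : m2 (j + 3) (rho p) = m2 j p := by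
  rw [m2, m2, mp_rho, mm_rho]
  fin_cases j <;> simp (decide := true)

theorem Cond_rho {M : ℝ → ℝ} {p : E4} {j : Fin 6} (h : Cond M j p) : Cond M (j + 3) (rho p) := by
  have h3 : ∀ j : Fin 6, (j + 3 = 0 ∨ j + 3 = 3) ↔ (j = 0 ∨ j = 3) := by decide
  unfold Cond at h ⊢
  rw [la_rho, m1_rho, m2_rho]
  simp only [h3 j]
  exact h

theorem CondA_symm {M : ℝ → ℝ} {α m m' : ℝ} (h : CondA M α m m') : CondA M (-α) m' m := by
  rcases h with ⟨h1, h2, h3⟩ | ⟨h1, h2⟩ | ⟨h1, h2⟩
  · left
    exact ⟨by linarith, h3, h2⟩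
  · right; right
    exact ⟨by linarith, h2⟩
  · right; left
    refine ⟨by linarith, ?_⟩
    rw [neg_neg]
    exact h2

theorem Cond_rhp {M : ℝ → ℝ} {p : E4} {j : Fin 6} (h : Cond M j p) : Cond M (-j) (rhp p) := by
  unfold Cond la m1 m2 at h ⊢
  rw [lat_rhp, mp_rhp, mm_rhp]
  fin_cases j
  · simp (decide := true) at h ⊢
    exact CondA_symm h
  · simp (decide := true) at h ⊢
    exact h
  · simp (decide := true) at h ⊢
    exact h
  · simp (decide := true) at h ⊢
    have := CondA_symm h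
    rwa [neg_neg] at this
  · simp (decide := true) at h ⊢
    exact h
  · simp (decide := true) at h ⊢
    exact h

theorem Dtop_rho {M : ℝ → ℝ} {p : E4} (h : p ∈ Dtop M) : rho p ∈ Dtop M := by
  rcases h with h | ⟨j, h1, h2⟩
  · left
    change rad (rho p) = 0
    rw [rad_rho]
    exact h
  · right
    exact ⟨j + 3, Pg_rho h1, Cond_rho h2⟩

theorem Dtop_rhp {M : ℝ → ℝ} {p : E4} (h : p ∈ Dtop M) : rhp p ∈ Dtop M := by
  rcases h with h | ⟨j, h1, h2⟩
  · left
    change rad (rhp p) = 0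
    rw [rad_rhp]
    exact h
  · right
    exact ⟨-j, Pg_rhp h1, Cond_rhp h2⟩

/-! ### page points are in the disk -/

theorem qqA {r χ s : ℝ} (h : χ ≤ π / 2) : qq r χ s = !₂[-(r * sin χ), r * cos χ, 0, s] := by
  rw [qq, if_pos h]

theorem qqB {r χ s : ℝ} (h0 : π / 2 ≤ χ) (h1 : χ ≤ 3 * π / 2) :
    qq r χ s = !₂[-(r * sin χ), r * cos χ / √2, r * cos χ / √2, s] := by
  rcases h0.eq_or_lt with h | h
  · rw [qqA h.ge, ← h, Real.cos_pi_div_two]
    simp
  · rw [qq, if_neg (not_le.mpr h), if_pos h1]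

theorem qqC {r χ s : ℝ} (h0 : 3 * π / 2 ≤ χ) :
    qq r χ s = !₂[-(r * sin χ), -(r * cos χ / √2), r * cos χ / √2, s] := by
  have hpi := Real.pi_pos
  rcases h0.eq_or_lt with h | h
  · rw [qqB (by linarith) h.ge, ← h]
    have : cos (3 * π / 2) = 0 := by
      rw [show 3 * π / 2 = π / 2 + π by ring, Real.cos_add_pi, Real.cos_pi_div_two, neg_zero]
    rw [this]
    simp
  · rw [qq, if_neg (not_le.mpr (by linarith)), if_neg (not_le.mpr h)]

theorem mp_qq {r χ s : ℝ} (hr : 0 ≤ r) :
    mp (qq r χ s) = √((r - 1 / 4) ^ 2 + (s - 1 / 2) ^ 2) := by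
  rw [mp, rad_qq hr, qq3]

theorem mm_qq {r χ s : ℝ} (hr : 0 ≤ r) :
    mm (qq r χ s) = √((r - 1 / 4) ^ 2 + (s + 1 / 2) ^ 2) := by
  rw [mm, rad_qq hr, qq3]

theorem qq_mem {r χ s : ℝ} (hr : 0 < r) (h0 : 0 < χ) (h1 : χ ≤ 2 * π)
    (hm : mp (qq r χ s) = Mf χ) : qq r χ s ∈ Dtop Mf := by
  have hpi := Real.pi_pos
  have hl := lat_qq (χ := χ) (s := s) hr
  right
  by_cases hA : χ ≤ π / 2
  · rw [arcsin_neg_sin h0.le hA] at hl
    refine ⟨0, ?_, ?_⟩
    · have hcos : 0 ≤ cos χ := Real.cos_nonneg_of_neg_pi_div_two_le_of_le (by linarith) hA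
      rw [qqA hA]
      constructor
      · change (1 : ℝ) * 0 - 0 * (r * cos χ) = 0
        ring
      · change 0 ≤ (1 : ℝ) * (r * cos χ) + 0 * 0
        have : 0 ≤ r * cos χ := by positivity
        linarith
    · rw [Cond, if_pos (Or.inl rfl)]
      right; left
      have e1 : la 0 (qq r χ s) = -χ := by
        rw [la, if_pos (by decide), hl]
      have e2 : m1 0 (qq r χ s) = Mf χ := by
        rw [m1, if_neg (by decide), hm]
      rw [e1, e2, neg_neg]
      exact ⟨by linarith, rfl⟩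
  · push Not at hA
    by_cases hB : χ ≤ 3 * π / 2
    · rw [arcsin_neg_sin' hA.le hB] at hl
      refine ⟨4, ?_, ?_⟩
      · have hcos : cos χ ≤ 0 := Real.cos_nonpos_of_pi_div_two_le_of_le hA.le (by linarith)
        rw [qqB hA.le hB]
        constructor
        · change (-1 : ℝ) * (r * cos χ / √2) - (-1) * (r * cos χ / √2) = 0
          ring
        · change 0 ≤ (-1 : ℝ) * (r * cos χ / √2) + (-1) * (r * cos χ / √2)
          have h5 : 0 ≤ r * (-cos χ) / √2 := by
            have : 0 ≤ -cos χ := by linarith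
            positivity
          have h6 : r * (-cos χ) / √2 = -(r * cos χ / √2) := by ring
          rw [h6] at h5
          linarith
      · rw [Cond, if_neg (by decide)]
        left
        have e1 : la 4 (qq r χ s) = -(χ - π) := by
          rw [la, if_neg (by decide), hl]
        have e2 : m1 4 (qq r χ s) = Mf χ := by
          rw [m1, if_neg (by decide), hm]
        rw [e1, e2]
        congr 1
        ring
    · push Not at hB
      rw [arcsin_neg_sin'' hB.le h1] at hl
      refine ⟨2, ?_, ?_⟩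
      · have hcos : 0 ≤ cos χ := by
          have : 0 ≤ cos (2 * π - χ) :=
            Real.cos_nonneg_of_neg_pi_div_two_le_of_le (by linarith) (by linarith)
          rwa [Real.cos_two_pi_sub] at this
        rw [qqC hB.le]
        have h5 : 0 ≤ r * cos χ / √2 := by positivity
        constructor
        · change (-1 : ℝ) * (r * cos χ / √2) - 1 * (-(r * cos χ / √2)) = 0
          ring
        · change 0 ≤ (-1 : ℝ) * (-(r * cos χ / √2)) + 1 * (r * cos χ / √2)
          linarith
      · rw [Cond, if_neg (by decide)]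
        right
        have e1 : la 2 (qq r χ s) = 2 * π - χ := by
          rw [la, if_pos (by decide), hl]
        have e2 : m2 2 (qq r χ s) = Mf χ := by
          rw [m2, if_pos (by decide), hm]
        rw [e1, e2]
        rcases h1.eq_or_lt with h | h
        · right
          rw [h]
          exact ⟨by ring, le_rfl⟩
        · left
          refine ⟨by linarith, ?_⟩
          congr 1
          ring

theorem qq_mem_cap {r s : ℝ} (hr : 0 < r) (hm : mp (qq r (2 * π) s) ≤ Mf (2 * π)) :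
    qq r (2 * π) s ∈ Dtop Mf := by
  have hpi := Real.pi_pos
  right
  refine ⟨2, ?_, ?_⟩
  · rw [qqC (by linarith), Real.cos_two_pi]
    have h5 : 0 ≤ r * 1 / √2 := by positivity
    constructor
    · change (-1 : ℝ) * (r * 1 / √2) - 1 * (-(r * 1 / √2)) = 0
      ring
    · change 0 ≤ (-1 : ℝ) * (-(r * 1 / √2)) + 1 * (r * 1 / √2)
      linarith
  · rw [Cond, if_neg (by decide)]
    right; right
    have e1 : la 2 (qq r (2 * π) s) = 0 := by
      rw [la, if_pos (by decide), lat_qq hr, Real.sin_two_pi]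
      simp
    have e2 : m2 2 (qq r (2 * π) s) = mp (qq r (2 * π) s) := by
      rw [m2, if_pos (by decide)]
    rw [e1, e2]
    exact ⟨rfl, hm⟩

theorem qq_zero (r s : ℝ) : qq r 0 s = !₂[0, r, 0, s] := by
  have hpi := Real.pi_pos
  rw [qqA (by linarith)]
  simp

theorem qq_mem_flat {r s : ℝ} (hr : 0 ≤ r) (hm : Mf 0 ≤ mp (qq r 0 s))
    (hm' : Mf 0 ≤ mm (qq r 0 s)) : qq r 0 s ∈ Dtop Mf := by
  rcases hr.eq_or_lt with h | h
  · left
    change rad (qq r 0 s) = 0
    rw [rad_qq hr, h]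
  · right
    refine ⟨0, ?_, ?_⟩
    · rw [qq_zero]
      constructor
      · change (1 : ℝ) * 0 - 0 * r = 0
        ring
      · change 0 ≤ (1 : ℝ) * r + 0 * 0
        linarith
    · rw [Cond, if_pos (Or.inl rfl)]
      left
      have e1 : la 0 (qq r 0 s) = 0 := by
        rw [la, if_pos (by decide), lat_qq h, Real.sin_zero]
        simp
      have e2 : m1 0 (qq r 0 s) = mp (qq r 0 s) := by
        rw [m1, if_neg (by decide)]
      have e3 : m2 0 (qq r 0 s) = mm (qq r 0 s) := by
        rw [m2, if_neg (by decide)]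
      rw [e1, e2, e3]
      exact ⟨rfl, hm, hm'⟩

end EQD.Bend
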