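/-
Module BEND of project EQD (MP_d3855f_gt), final part.
-/
import Pool.Agent.H65.EQD.Bend5

set_option autoImplicit false

open Real Set Topology

namespace EQD.Bend

/-- the page point of the parameter `(a,b)` -/
noncomputable def QQ (a b : ℝ) : E4 := qq (rr a b) (ch a b) (ss a b)

theorem rs_sq (a b : ℝ) : (rr a b - 1 / 4) ^ 2 + (ss a b - 1 / 2) ^ 2 =
    (fN (ft a b)) ^ 2 * ft a b / 4096 := by
  have h : ft a b = 4096 * ((a - 1 / 4) ^ 2 + (b - 1 / 2) ^ 2) := rfl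
  unfold rr ss
  generalize fN (ft a b) = n
  rw [h]
  ring

theorem ft_nonneg (a b : ℝ) : 0 ≤ ft a b := by
  unfold ft
  positivity

theorem rs_dist (a b : ℝ) : √((rr a b - 1 / 4) ^ 2 + (ss a b - 1 / 2) ^ 2) =
    √(ft a b) * fN (ft a b) / 64 := by
  have h1 := fN_ge (ft a b)
  have h2 := Real.sqrt_nonneg (ft a b)
  have h3 : (rr a b - 1 / 4) ^ 2 + (ss a b - 1 / 2) ^ 2 = (√(ft a b) * fN (ft a b) / 64) ^ 2 := by
    rw [rs_sq, div_pow, mul_pow, Real.sq_sqrt (ft_nonneg a b)]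
    ring
  rw [h3, Real.sqrt_sq]
  have : 0 ≤ fN (ft a b) := by linarith
  positivity

theorem rs_near {a b : ℝ} (h : ft a b < 9) : 3 / 16 ≤ rr a b ∧ 7 / 16 ≤ ss a b := by
  have h1 := rs_sq a b
  have h2 : (√(ft a b) * fN (ft a b)) ^ 2 ≤ 4 ^ 2 := by
    have h3 := sqrt_fN_le h.le
    have h4 : 0 ≤ √(ft a b) * fN (ft a b) := by
      have := fN_ge (ft a b)
      have : 0 ≤ fN (ft a b) := by linarith
      positivity
    exact pow_le_pow_left₀ h4 h3 2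
  rw [mul_pow, Real.sq_sqrt (ft_nonneg a b)] at h2
  have h5 : (rr a b - 1 / 4) ^ 2 + (ss a b - 1 / 2) ^ 2 ≤ (1 / 16) ^ 2 := by
    rw [h1]
    linarith
  have h6 : |rr a b - 1 / 4| ≤ 1 / 16 := by
    apply abs_le_of_sq_le_sq _ (by norm_num)
    nlinarith [sq_nonneg (ss a b - 1 / 2)]
  have h7 : |ss a b - 1 / 2| ≤ 1 / 16 := by
    apply abs_le_of_sq_le_sq _ (by norm_num)
    nlinarith [sq_nonneg (rr a b - 1 / 4)]
  rw [abs_le] at h6 h7
  constructor <;> linarith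

theorem far {a b : ℝ} (h : 9 ≤ ft a b) : rr a b = a ∧ ss a b = b ∧ ch a b = 0 := by
  rw [rr, ss, ch, fN_eq_one_ge h, fA_ge h]
  refine ⟨by ring, by ring, rfl⟩

theorem QQ_far {a b : ℝ} (h : 9 ≤ ft a b) : QQ a b = !₂[0, a, 0, b] := by
  obtain ⟨h1, h2, h3⟩ := far h
  rw [QQ, h1, h2, h3, qq_zero]

theorem eP_far {a b : ℝ} (h : 9 ≤ ft a b) : eP a b = e0 a b := by
  obtain ⟨h1, h2, h3⟩ := far h
  rw [eP_eq, h1, h2, h3, eq', fc_zero (by norm_num), fVn_zero, fV1, fV2]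
  simp [e0]

theorem ft_ge_of {a b : ℝ} (h : a ≤ 0 ∨ b ≤ 0) : 9 ≤ ft a b := by
  unfold ft
  rcases h with h | h
  · nlinarith [sq_nonneg (b - 1 / 2)]
  · nlinarith [sq_nonneg (a - 1 / 4)]

/-- the homeomorphism carries page points to points of the smooth disk -/
theorem G_QQ {a b : ℝ} (ha : 0 ≤ a) (hb : 0 ≤ b) : Gh (QQ a b) = eP a b := by
  rcases le_or_gt 9 (ft a b) with h | h
  · rw [QQ_far h, eP_far h, Gh_pp (le_refl (0 : ℝ)) hb, Bh_id_x (le_refl (0 : ℝ))]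
    rfl
  · obtain ⟨h1, h2⟩ := rs_near h
    rw [QQ, eP_eq]
    exact G_qq (by linarith) (by linarith) (fA_nonneg _) (fA_le_two _)

theorem ft_dist (a b : ℝ) : √((a - 1 / 4) ^ 2 + (b - 1 / 2) ^ 2) = √(ft a b) / 64 := by
  have h : (a - 1 / 4) ^ 2 + (b - 1 / 2) ^ 2 = ft a b / 64 ^ 2 := by
    unfold ft
    ring
  rw [h, Real.sqrt_div (ft_nonneg a b), Real.sqrt_sq (by norm_num)]

theorem sqrt9 : √(9 : ℝ) = 3 := by
  rw [show (9 : ℝ) = 3 ^ 2 by norm_num, Real.sqrt_sq (by norm_num)]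

theorem QQ_mem {a b : ℝ} (ha : 0 ≤ a) (hb : 0 ≤ b) : QQ a b ∈ Dtop Mf := by
  have hpi := Real.pi_pos
  rcases le_or_gt 9 (ft a b) with h | h
  · obtain ⟨h1, h2, h3⟩ := far h
    rw [QQ, h1, h2, h3]
    refine qq_mem_flat ha ?_ ?_
    · rw [mp_qq ha, ft_dist, Mf_zero]
      have : (3 : ℝ) ≤ √(ft a b) := by
        rw [← sqrt9]
        exact Real.sqrt_le_sqrt h
      linarith
    · rw [mm_qq ha, Mf_zero]
      apply Real.le_sqrt_of_sq_le
      nlinarith [sq_nonneg (a - 1 / 4)]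
  · obtain ⟨h1, h2⟩ := rs_near h
    rcases le_or_gt 1 (ft a b) with h' | h'
    · rw [QQ]
      refine qq_mem (by linarith) ?_ (fA_le_two _) ?_
      · have h3 := fA_anti ⟨h', h.le⟩ (⟨by norm_num, le_rfl⟩ : (9 : ℝ) ∈ Icc (1 : ℝ) 9) h
        rw [fA_ge le_rfl] at h3
        exact h3
      · rw [mp_qq (by linarith), rs_dist, ch, Mf_fA ⟨h', h.le⟩]
    · have h3 : ch a b = 2 * π := fA_le h'.le
      rw [QQ, h3]
      refine qq_mem_cap (by linarith) ?_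
      rw [mp_qq (by linarith), rs_dist, Mf_two_pi, fN_eq_one_le h'.le]
      have : √(ft a b) ≤ 1 := by
        rw [show (1 : ℝ) = √1 by rw [Real.sqrt_one]]
        exact Real.sqrt_le_sqrt h'.le
      linarith

/-- solving for the parameters -/
theorem exists_param {t r s : ℝ} (ht : t ∈ Icc (1 : ℝ) 9)
    (h : √((r - 1 / 4) ^ 2 + (s - 1 / 2) ^ 2) = √t * fN t / 64) :
    ∃ a b : ℝ, 0 ≤ a ∧ 0 ≤ b ∧ rr a b = r ∧ ss a b = s ∧ ch a b = fA t := by
  have hn := fN_ge t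
  have hn0 : 0 < fN t := by linarith
  have h2 : (r - 1 / 4) ^ 2 + (s - 1 / 2) ^ 2 = t * fN t ^ 2 / 4096 := by
    have := Real.sq_sqrt (show (0 : ℝ) ≤ (r - 1 / 4) ^ 2 + (s - 1 / 2) ^ 2 by positivity)
    rw [← this, h, div_pow, mul_pow, Real.sq_sqrt (by linarith [ht.1])]
    ring
  have hft : ft (1 / 4 + (r - 1 / 4) / fN t) (1 / 2 + (s - 1 / 2) / fN t) = t := by
    unfold ft
    have : (1 / 4 + (r - 1 / 4) / fN t - 1 / 4) ^ 2 + (1 / 2 + (s - 1 / 2) / fN t - 1 / 2) ^ 2 =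
        ((r - 1 / 4) ^ 2 + (s - 1 / 2) ^ 2) / fN t ^ 2 := by
      field_simp
      ring
    rw [this, h2]
    field_simp
  have hab : (1 / 4 + (r - 1 / 4) / fN t - 1 / 4) ^ 2 + (1 / 2 + (s - 1 / 2) / fN t - 1 / 2) ^ 2
      ≤ (3 / 64) ^ 2 := by
    unfold ft at hft
    linarith [ht.2]
  refine ⟨1 / 4 + (r - 1 / 4) / fN t, 1 / 2 + (s - 1 / 2) / fN t, ?_, ?_, ?_, ?_, ?_⟩
  · have h6 : |1 / 4 + (r - 1 / 4) / fN t - 1 / 4| ≤ 3 / 64 := by
      apply abs_le_of_sq_le_sq _ (by norm_num)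
      nlinarith [sq_nonneg (1 / 2 + (s - 1 / 2) / fN t - 1 / 2)]
    rw [abs_le] at h6
    linarith
  · have h6 : |1 / 2 + (s - 1 / 2) / fN t - 1 / 2| ≤ 3 / 64 := by
      apply abs_le_of_sq_le_sq _ (by norm_num)
      nlinarith [sq_nonneg (1 / 4 + (r - 1 / 4) / fN t - 1 / 4)]
    rw [abs_le] at h6
    linarith
  · rw [rr, hft]
    field_simp
    ring
  · rw [ss, hft]
    field_simp
    ring
  · rw [ch, hft]

theorem rad_sq (p : E4) : rad p ^ 2 = p 0 ^ 2 + p 1 ^ 2 + p 2 ^ 2 := Real.sq_sqrt (by positivity)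

theorem abs_div_rad_le (p : E4) : |p 0 / rad p| ≤ 1 := by
  have h0 : 0 ≤ rad p := Real.sqrt_nonneg _
  rw [abs_div, abs_of_nonneg h0]
  apply div_le_one_of_le₀ _ h0
  apply abs_le_of_sq_le_sq _ h0
  rw [rad_sq]
  nlinarith [sq_nonneg (p 1), sq_nonneg (p 2)]

theorem sin_lat {p : E4} (h : rad p ≠ 0) : rad p * sin (lat p) = p 0 := by
  have h1 := abs_div_rad_le p
  rw [abs_le] at h1
  rw [lat, Real.sin_arcsin h1.1 h1.2]
  field_simp

theorem cos_lat {p : E4} (h : rad p ≠ 0) : rad p * cos (lat p) = √(p 1 ^ 2 + p 2 ^ 2) := by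
  have h0 : 0 ≤ rad p := Real.sqrt_nonneg _
  have h1 : 0 ≤ cos (lat p) := Real.cos_arcsin_nonneg _
  have h2 : (rad p * cos (lat p)) ^ 2 = p 1 ^ 2 + p 2 ^ 2 := by
    have h3 := sin_lat h
    have h4 := Real.sin_sq_add_cos_sq (lat p)
    have h5 := rad_sq p
    have h6 : (rad p * sin (lat p)) ^ 2 = p 0 ^ 2 := by rw [h3]
    linear_combination h5 - h6 + rad p ^ 2 * h4
  rw [← h2, Real.sqrt_sq (by positivity)]

theorem lat_mem (p : E4) : -(π / 2) ≤ lat p ∧ lat p ≤ π / 2 :=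
  ⟨Real.neg_pi_div_two_le_arcsin _, Real.arcsin_le_pi_div_two _⟩

/-- points of page 0, negative latitude -/
theorem page0 {p : E4} (h : rad p ≠ 0) (hp : p ∈ Pg 0) : p = qq (rad p) (-lat p) (p 3) ∨
    0 < lat p := by
  rcases le_or_gt (lat p) 0 with hl | hl
  · left
    have hm := lat_mem p
    rw [qqA (by linarith [hm.1]), Real.sin_neg, Real.cos_neg]
    obtain ⟨h1, h2⟩ := hp
    have h1' : (1 : ℝ) * p 2 - 0 * p 1 = 0 := h1
    have h2' : 0 ≤ (1 : ℝ) * p 1 + 0 * p 2 := h2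
    have hz : p 2 = 0 := by linarith
    have hy : 0 ≤ p 1 := by linarith
    have hs := sin_lat h
    have hc := cos_lat h
    rw [hz] at hc
    have hc' : √(p 1 ^ 2 + 0 ^ 2) = p 1 := by
      rw [zero_pow two_ne_zero, add_zero, Real.sqrt_sq hy]
    rw [hc'] at hc
    refine ext4 ?_ ?_ ?_ rfl
    · change p 0 = -(rad p * -sin (lat p))
      linarith
    · change p 1 = rad p * cos (lat p)
      exact hc.symm
    · exact hz
  · exact Or.inr hl

/-- points of page 4 -/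
theorem page4 {p : E4} (h : rad p ≠ 0) (hp : p ∈ Pg 4) : p = qq (rad p) (π + lat p) (p 3) := by
  have hm := lat_mem p
  have hpi := Real.pi_pos
  rw [qqB (by linarith [hm.1]) (by linarith [hm.2]), add_comm π, Real.sin_add_pi, Real.cos_add_pi]
  obtain ⟨h1, h2⟩ := hp
  have h1' : (-1 : ℝ) * p 2 - (-1) * p 1 = 0 := h1
  have h2' : 0 ≤ (-1 : ℝ) * p 1 + (-1) * p 2 := h2
  have hz : p 2 = p 1 := by linarith
  have hy : p 1 ≤ 0 := by linarith
  have hs := sin_lat h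
  have hc := cos_lat h
  have hc' : √(p 1 ^ 2 + p 2 ^ 2) = √2 * (-p 1) := by
    rw [hz, show p 1 ^ 2 + p 1 ^ 2 = 2 * (-p 1) ^ 2 by ring, Real.sqrt_mul (by norm_num),
      Real.sqrt_sq (by linarith)]
  rw [hc'] at hc
  have h2pos := sq2pos
  have hv : p 1 = rad p * -cos (lat p) / √2 := by
    rw [mul_neg, hc]
    field_simp
  refine ext4 ?_ hv ?_ rfl
  · change p 0 = -(rad p * -sin (lat p))
    linarith
  · rw [hz]
    exact hv

/-- points of page 2, nonnegative latitude -/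
theorem page2 {p : E4} (h : rad p ≠ 0) (hp : p ∈ Pg 2) (hl : 0 ≤ lat p) :
    p = qq (rad p) (2 * π - lat p) (p 3) := by
  have hm := lat_mem p
  have hpi := Real.pi_pos
  rw [qqC (by linarith [hm.2]), Real.sin_two_pi_sub, Real.cos_two_pi_sub]
  obtain ⟨h1, h2⟩ := hp
  have h1' : (-1 : ℝ) * p 2 - 1 * p 1 = 0 := h1
  have h2' : 0 ≤ (-1 : ℝ) * p 1 + 1 * p 2 := h2
  have hz : p 1 = -p 2 := by linarith
  have hy : 0 ≤ p 2 := by linarith
  have hs := sin_lat h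
  have hc := cos_lat h
  have hc' : √(p 1 ^ 2 + p 2 ^ 2) = √2 * p 2 := by
    rw [hz, show (-p 2) ^ 2 + p 2 ^ 2 = 2 * p 2 ^ 2 by ring, Real.sqrt_mul (by norm_num),
      Real.sqrt_sq hy]
  rw [hc'] at hc
  have h2pos := sq2pos
  have hv : p 2 = rad p * cos (lat p) / √2 := by
    rw [hc]
    field_simp
  refine ext4 ?_ ?_ hv rfl
  · change p 0 = -(rad p * -sin (lat p))
    linarith
  · change p 1 = -(rad p * cos (lat p) / √2)
    rw [← hv, hz]

/-- a point of the form `qq` with the right distance is a page point of the parametrisation -/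
theorem param_of {p : E4} {χ : ℝ} (h0 : 0 ≤ χ) (h1 : χ ≤ 2 * π)
    (hp : p = qq (rad p) χ (p 3)) (hm : mp p = Mf χ) :
    ∃ a b : ℝ, 0 ≤ a ∧ 0 ≤ b ∧ p = QQ a b := by
  have h2 : √((rad p - 1 / 4) ^ 2 + (p 3 - 1 / 2) ^ 2) = √(tinv χ) * fN (tinv χ) / 64 := hm
  obtain ⟨a, b, ha, hb, hr, hs, hc⟩ := exists_param (tinv_mem χ) h2
  rw [fA_tinv ⟨h0, h1⟩] at hc
  exact ⟨a, b, ha, hb, by rw [QQ, hr, hs, hc]; exact hp⟩

/-- `p` is a page point of the parametrisation -/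
def IsQ (p : E4) : Prop := ∃ a b : ℝ, 0 ≤ a ∧ 0 ≤ b ∧ p = QQ a b

theorem rad_ne_of_lat {p : E4} (h : lat p ≠ 0) : rad p ≠ 0 := by
  intro h0
  apply h
  rw [lat, h0, div_zero, Real.arcsin_zero]

theorem rad_ne_of_mp {p : E4} {c : ℝ} (hc : c ≤ 1 / 16) (h : mp p ≤ c) : rad p ≠ 0 := by
  intro h0
  rw [mp, h0] at h
  have h1 : (1 / 4 : ℝ) ≤ √((0 - 1 / 4) ^ 2 + (p 3 - 1 / 2) ^ 2) := by
    apply Real.le_sqrt_of_sq_le
    nlinarith [sq_nonneg (p 3 - 1 / 2)]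
  linarith

/-- the conditions on the pages 0, 2, 4 -/
theorem isQ_even {p : E4} (hs : 0 ≤ p 3) (j : Fin 6) (hj : j = 0 ∨ j = 2 ∨ j = 4) (hp : p ∈ Pg j)
    (hc : Cond Mf j p) : IsQ p := by
  have hpi := Real.pi_pos
  have hmm : ∀ c : ℝ, c ≤ 1 / 16 → mm p ≤ c → False := by
    intro c hc h
    have h1 : (1 / 2 : ℝ) ≤ mm p := by
      rw [mm]
      apply Real.le_sqrt_of_sq_le
      nlinarith [sq_nonneg (rad p - 1 / 4)]
    linarith
  have hlm := lat_mem p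
  rcases hj with rfl | rfl | rfl
  · rw [Cond, if_pos (Or.inl rfl)] at hc
    have e1 : la 0 p = lat p := by rw [la, if_pos (by decide)]
    have e2 : m1 0 p = mp p := by rw [m1, if_neg (by decide)]
    have e3 : m2 0 p = mm p := by rw [m2, if_neg (by decide)]
    rw [e1, e2, e3] at hc
    rcases hc with ⟨h1, h2, h3⟩ | ⟨h1, h2⟩ | ⟨h1, h2⟩
    · -- flat part
      by_cases hr : rad p = 0
      · refine ⟨0, p 3, le_rfl, hs, ?_⟩
        rw [QQ_far (ft_ge_of (Or.inl le_rfl))]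
        have h5 := rad_sq p
        rw [hr] at h5
        refine ext4 ?_ ?_ ?_ rfl
        · change p 0 = 0
          nlinarith [sq_nonneg (p 0), sq_nonneg (p 1), sq_nonneg (p 2)]
        · change p 1 = 0
          nlinarith [sq_nonneg (p 0), sq_nonneg (p 1), sq_nonneg (p 2)]
        · change p 2 = 0
          nlinarith [sq_nonneg (p 0), sq_nonneg (p 1), sq_nonneg (p 2)]
      · rcases page0 hr hp with h4 | h4
        · rw [h1, neg_zero, qq_zero] at h4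
          have h0r : 0 ≤ rad p := Real.sqrt_nonneg _
          have h9 : 9 ≤ ft (rad p) (p 3) := by
            have h5 := ft_dist (rad p) (p 3)
            rw [Mf_zero, mp, h5] at h2
            have h6 : (3 : ℝ) ≤ √(ft (rad p) (p 3)) := by linarith
            have h7 := Real.sq_sqrt (ft_nonneg (rad p) (p 3))
            nlinarith
          refine ⟨rad p, p 3, h0r, hs, ?_⟩
          rw [QQ_far h9]
          exact h4
        · linarith
    · rcases page0 (rad_ne_of_lat h1.ne) hp with h4 | h4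
      · exact param_of (by linarith) (by linarith [hlm.1]) h4 h2
      · linarith
    · exact (hmm _ (Mf_le _) h2.le).elim
  · rw [Cond, if_neg (by decide)] at hc
    have e1 : la 2 p = lat p := by rw [la, if_pos (by decide)]
    have e2 : m1 2 p = mm p := by rw [m1, if_pos (by decide)]
    have e3 : m2 2 p = mp p := by rw [m2, if_pos (by decide)]
    rw [e1, e2, e3] at hc
    rcases hc with h1 | ⟨h1, h2⟩ | ⟨h1, h2⟩
    · exact (hmm _ (Mf_le _) h1.le).elim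
    · exact param_of (by linarith [hlm.2]) (by linarith)
        (page2 (rad_ne_of_lat h1.ne') hp h1.le) h2
    · -- cap
      have hr := rad_ne_of_mp (Mf_le _) h2
      have h4 := page2 hr hp h1.ge
      rw [h1, sub_zero] at h4
      have h0r : 0 ≤ rad p := Real.sqrt_nonneg _
      have h9 : ft (rad p) (p 3) ≤ 1 := by
        have h5 := ft_dist (rad p) (p 3)
        rw [Mf_two_pi, mp, h5] at h2
        have h6 : √(ft (rad p) (p 3)) ≤ 1 := by linarith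
        have h7 := Real.sq_sqrt (ft_nonneg (rad p) (p 3))
        have h8 := Real.sqrt_nonneg (ft (rad p) (p 3))
        nlinarith
      refine ⟨rad p, p 3, h0r, hs, ?_⟩
      rw [QQ, rr, ss, ch, fN_eq_one_le h9, fA_le h9]
      have e4 : 1 / 4 + 1 * (rad p - 1 / 4) = rad p := by ring
      have e5 : 1 / 2 + 1 * (p 3 - 1 / 2) = p 3 := by ring
      rw [e4, e5]
      exact h4
  · rw [Cond, if_neg (by decide)] at hc
    have e1 : la 4 p = -lat p := by rw [la, if_neg (by decide)]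
    have e2 : m1 4 p = mp p := by rw [m1, if_neg (by decide)]
    have e3 : m2 4 p = mm p := by rw [m2, if_neg (by decide)]
    rw [e1, e2, e3] at hc
    rcases hc with h1 | ⟨h1, h2⟩ | ⟨h1, h2⟩
    · have hr := rad_ne_of_mp (Mf_le _) h1.le
      refine param_of (χ := π + lat p) (by linarith [hlm.1]) (by linarith [hlm.2]) (page4 hr hp) ?_
      rw [h1]
      congr 1
      ring
    · exact (hmm _ (Mf_le _) h2.le).elim
    · exact (hmm _ (Mf_le _) h2).elim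

theorem isQ_all {p : E4} (hs : 0 ≤ p 3) (hp : p ∈ Dtop Mf) : IsQ p ∨ IsQ (rho p) := by
  rcases hp with hp | ⟨j, h1, h2⟩
  · left
    refine ⟨0, p 3, le_rfl, hs, ?_⟩
    rw [QQ_far (ft_ge_of (Or.inl le_rfl))]
    have h5 := rad_sq p
    have hp' : rad p = 0 := hp
    rw [hp'] at h5
    refine ext4 ?_ ?_ ?_ rfl
    · change p 0 = 0
      nlinarith [sq_nonneg (p 0), sq_nonneg (p 1), sq_nonneg (p 2)]
    · change p 1 = 0
      nlinarith [sq_nonneg (p 0), sq_nonneg (p 1), sq_nonneg (p 2)]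
    · change p 2 = 0
      nlinarith [sq_nonneg (p 0), sq_nonneg (p 1), sq_nonneg (p 2)]
  · have h3 : ∀ j : Fin 6, (j = 0 ∨ j = 2 ∨ j = 4) ∨ (j + 3 = 0 ∨ j + 3 = 2 ∨ j + 3 = 4) := by
      decide
    rcases h3 j with h | h
    · exact Or.inl (isQ_even hs j h h1 h2)
    · right
      exact isQ_even (by rw [rho3]; exact hs) (j + 3) h (Pg_rho h1) (Cond_rho h2)

/-! ### the smooth disk -/

theorem rho_e0 (a b : ℝ) : rho (e0 a b) = e0 (-a) b := by
  refine ext4 ?_ ?_ ?_ ?_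
  · change -(0 : ℝ) = 0
    ring
  · rfl
  · change -(0 : ℝ) = 0
    ring
  · rfl

theorem rhp_e0 (a b : ℝ) : rhp (e0 a b) = e0 a (-b) := by
  refine ext4 ?_ ?_ ?_ ?_
  · change -(0 : ℝ) = 0
    ring
  · rfl
  · change -(0 : ℝ) = 0
    ring
  · rfl

theorem eD_pp {h : E2} (h0 : 0 ≤ h 0) (h1 : 0 ≤ h 1) : eD h = eP (h 0) (h 1) := by
  rw [eD, eP_far (ft_ge_of (a := -h 0) (b := h 1) (Or.inl (by linarith))),
    eP_far (ft_ge_of (a := h 0) (b := -h 1) (Or.inr (by linarith))),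
    eP_far (ft_ge_of (a := -h 0) (b := -h 1) (Or.inr (by linarith)))]
  simp only [rho_e0, rhp_e0, neg_neg]
  abel

theorem eD_np {h : E2} (h0 : h 0 ≤ 0) (h1 : 0 ≤ h 1) : eD h = rho (eP (-h 0) (h 1)) := by
  rw [eD, eP_far (ft_ge_of (a := h 0) (b := h 1) (Or.inl (by linarith))),
    eP_far (ft_ge_of (a := h 0) (b := -h 1) (Or.inr (by linarith))),
    eP_far (ft_ge_of (a := -h 0) (b := -h 1) (Or.inr (by linarith)))]
  simp only [rho_e0, rhp_e0, neg_neg]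
  abel

theorem eD_pn {h : E2} (h0 : 0 ≤ h 0) (h1 : h 1 ≤ 0) : eD h = rhp (eP (h 0) (-h 1)) := by
  rw [eD, eP_far (ft_ge_of (a := h 0) (b := h 1) (Or.inr (by linarith))),
    eP_far (ft_ge_of (a := -h 0) (b := h 1) (Or.inl (by linarith))),
    eP_far (ft_ge_of (a := -h 0) (b := -h 1) (Or.inl (by linarith)))]
  simp only [rho_e0, rhp_e0, neg_neg]
  abel

theorem eD_nn {h : E2} (h0 : h 0 ≤ 0) (h1 : h 1 ≤ 0) : eD h = rho (rhp (eP (-h 0) (-h 1))) := by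
  rw [eD, eP_far (ft_ge_of (a := h 0) (b := h 1) (Or.inr (by linarith))),
    eP_far (ft_ge_of (a := -h 0) (b := h 1) (Or.inr (by linarith))),
    eP_far (ft_ge_of (a := h 0) (b := -h 1) (Or.inl (by linarith)))]
  simp only [rho_e0, rhp_e0, neg_neg]
  abel

theorem QQ_norm {a b : ℝ} (h : QQ a b ∈ B4) : a ^ 2 + b ^ 2 ≤ 1 := by
  rcases le_or_gt 9 (ft a b) with h9 | h9
  · rw [QQ_far h9] at h
    have h1 : ‖(!₂[0, a, 0, b] : E4)‖ ≤ 1 := by simpa [B4] using h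
    have h2 := norm_sq4 (!₂[0, a, 0, b] : E4)
    have h3 : (‖(!₂[0, a, 0, b] : E4)‖) ^ 2 ≤ 1 := by
      have := norm_nonneg (!₂[0, a, 0, b] : E4)
      nlinarith
    rw [h2] at h3
    have h4 : (0 : ℝ) ^ 2 + a ^ 2 + 0 ^ 2 + b ^ 2 ≤ 1 := h3
    linarith
  · unfold ft at h9
    have h1 : (a - 1 / 4) ^ 2 + (b - 1 / 2) ^ 2 < (3 / 64) ^ 2 := by linarith
    have h6 : |a - 1 / 4| ≤ 3 / 64 := by
      apply abs_le_of_sq_le_sq _ (by norm_num)
      nlinarith [sq_nonneg (b - 1 / 2)]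
    have h7 : |b - 1 / 2| ≤ 3 / 64 := by
      apply abs_le_of_sq_le_sq _ (by norm_num)
      nlinarith [sq_nonneg (a - 1 / 4)]
    rw [abs_le] at h6 h7
    nlinarith

theorem mem_ball2 {a b : ℝ} (h : a ^ 2 + b ^ 2 ≤ 1) : (!₂[a, b] : E2) ∈ Metric.closedBall 0 1 := by
  rw [mem_closedBall_zero_iff]
  have h1 : ‖(!₂[a, b] : E2)‖ ^ 2 = a ^ 2 + b ^ 2 := by
    rw [EuclideanSpace.norm_sq_eq]
    simp
  have h2 := norm_nonneg (!₂[a, b] : E2)
  nlinarith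

theorem rho_B4 {p : E4} (h : p ∈ B4) : rho p ∈ B4 := by
  have h1 : ‖p‖ ≤ 1 := by simpa [B4] using h
  have : ‖rho p‖ ≤ 1 := by rw [rho_norm]; exact h1
  simpa [B4] using this

theorem rhp_B4 {p : E4} (h : p ∈ B4) : rhp p ∈ B4 := by
  have h1 : ‖p‖ ≤ 1 := by simpa [B4] using h
  have : ‖rhp p‖ ≤ 1 := by rw [rhp_norm]; exact h1
  simpa [B4] using this

theorem eP_mem {a b : ℝ} (ha : 0 ≤ a) (hb : 0 ≤ b) (h : a ^ 2 + b ^ 2 ≤ 1) : eP a b ∈ Ds := by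
  refine ⟨!₂[a, b], mem_ball2 h, ?_⟩
  exact eD_pp (h := !₂[a, b]) ha hb

theorem rho_eP_mem {a b : ℝ} (ha : 0 ≤ a) (hb : 0 ≤ b) (h : a ^ 2 + b ^ 2 ≤ 1) :
    rho (eP a b) ∈ Ds := by
  refine ⟨!₂[-a, b], mem_ball2 (by linarith [neg_sq a]), ?_⟩
  rw [eD_np (h := !₂[-a, b]) (show -a ≤ 0 by linarith) hb]
  change rho (eP (- -a) b) = _
  rw [neg_neg]

theorem rhp_eP_mem {a b : ℝ} (ha : 0 ≤ a) (hb : 0 ≤ b) (h : a ^ 2 + b ^ 2 ≤ 1) :
    rhp (eP a b) ∈ Ds := by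
  refine ⟨!₂[a, -b], mem_ball2 (by linarith [neg_sq b]), ?_⟩
  rw [eD_pn (h := !₂[a, -b]) ha (show -b ≤ 0 by linarith)]
  change rhp (eP a (- -b)) = _
  rw [neg_neg]

theorem rho_rhp_eP_mem {a b : ℝ} (ha : 0 ≤ a) (hb : 0 ≤ b) (h : a ^ 2 + b ^ 2 ≤ 1) :
    rho (rhp (eP a b)) ∈ Ds := by
  refine ⟨!₂[-a, -b], mem_ball2 (by linarith [neg_sq b, neg_sq a]), ?_⟩
  rw [eD_nn (h := !₂[-a, -b]) (show -a ≤ 0 by linarith) (show -b ≤ 0 by linarith)]
  change rho (rhp (eP (- -a) (- -b))) = _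
  rw [neg_neg, neg_neg]

theorem main_bwd {x : E4} (hB : x ∈ B4) (hx : x ∈ Dtop Mf) : Gh x ∈ Ds := by
  rcases le_total 0 (x 3) with hs | hs
  · rcases isQ_all hs hx with ⟨a, b, ha, hb, h⟩ | ⟨a, b, ha, hb, h⟩
    · rw [h, G_QQ ha hb]
      exact eP_mem ha hb (QQ_norm (h ▸ hB))
    · have h2 : x = rho (QQ a b) := by rw [← h, rho_rho]
      rw [h2, Gh_rho, G_QQ ha hb]
      exact rho_eP_mem ha hb (QQ_norm (h ▸ rho_B4 hB))
  · rcases isQ_all (p := rhp x) (by rw [rhp3]; linarith) (Dtop_rhp hx) with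
      ⟨a, b, ha, hb, h⟩ | ⟨a, b, ha, hb, h⟩
    · have h2 : x = rhp (QQ a b) := by rw [← h, rhp_rhp]
      rw [h2, Gh_rhp, G_QQ ha hb]
      exact rhp_eP_mem ha hb (QQ_norm (h ▸ rhp_B4 hB))
    · have h2 : x = rhp (rho (QQ a b)) := by rw [← h, rho_rho, rhp_rhp]
      rw [h2, Gh_rhp, Gh_rho, G_QQ ha hb, ← rho_rhp]
      exact rho_rhp_eP_mem ha hb (QQ_norm (h ▸ rho_B4 (rhp_B4 hB)))

theorem main_fwd {x : E4} (hx : Gh x ∈ Ds) : x ∈ Dtop Mf := by
  obtain ⟨h, -, he⟩ := hx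
  rcases le_total 0 (h 0) with h0 | h0 <;> rcases le_total 0 (h 1) with h1 | h1
  · rw [eD_pp h0 h1, ← G_QQ h0 h1] at he
    rw [← Gh.injective he]
    exact QQ_mem h0 h1
  · rw [eD_pn h0 h1, ← G_QQ h0 (by linarith), ← Gh_rhp] at he
    rw [← Gh.injective he]
    exact Dtop_rhp (QQ_mem h0 (by linarith))
  · rw [eD_np h0 h1, ← G_QQ (by linarith) h1, ← Gh_rho] at he
    rw [← Gh.injective he]
    exact Dtop_rho (QQ_mem (by linarith) h1)
  · rw [eD_nn h0 h1, ← G_QQ (by linarith) (by linarith), ← Gh_rhp, ← Gh_rho] at he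
    rw [← Gh.injective he]
    exact Dtop_rho (Dtop_rhp (QQ_mem (by linarith) (by linarith)))

end EQD.Bend

/-- Module BEND. -/
theorem EQD.bend : EQD.S_BEND :=
  ⟨EQD.Bend.Mf, EQD.Bend.Mf_good, EQD.Bend.Gh, EQD.Bend.Gh_norm, EQD.Bend.Gh_rho,
    EQD.Bend.Gh_rhp, fun _ h => EQD.Bend.Gh_s0 h,
    fun _ hB => ⟨EQD.Bend.main_fwd, EQD.Bend.main_bwd hB⟩⟩
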